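import Pool.Agent.K6.H67.SY.Geo

/-!
The action of the four-group on the product of three 3-spheres, and its quotient.
-/

set_option autoImplicit false

open scoped Manifold ContDiff Topology
open Set Manifold Module Bundle

noncomputable section

namespace Pool.Agent.K6.H67.SY

/-! ### The group -/

/-- multiplication by a sign as a linear isometry -/
def eps (u : ℤˣ) : E4 ≃ₗᵢ[ℝ] E4 := if u = 1 then LinearIsometryEquiv.refl ℝ E4 else LinearIsometryEquiv.neg ℝ

lemma eps_apply (u : ℤˣ) (v : E4) : eps u v = ((u : ℤ) : ℝ) • v := by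
  rcases Int.units_eq_one_or u with rfl | rfl
  · simp [eps]
  · have : (-1 : ℤˣ) ≠ 1 := by decide
    simp [eps, this]

/-- the four-group -/
def Gam : Type := ℤˣ × ℤˣ

instance : Group Gam := inferInstanceAs (Group (ℤˣ × ℤˣ))
instance : Fintype Gam := inferInstanceAs (Fintype (ℤˣ × ℤˣ))

/-- the three signs of an element of the four-group: their product is `1` -/
def sg (γ : Gam) : Fin 3 → ℤˣ := ![γ.1, γ.2, γ.1 * γ.2]

lemma sg_one (i : Fin 3) : sg 1 i = 1 := by
  fin_cases i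
  · rfl
  · rfl
  · rfl

lemma sg_mul (γ δ : Gam) (i : Fin 3) : sg (γ * δ) i = sg γ i * sg δ i := by
  fin_cases i
  · rfl
  · rfl
  · show γ.1 * δ.1 * (γ.2 * δ.2) = γ.1 * γ.2 * (δ.1 * δ.2)
    rw [mul_mul_mul_comm]

/-- the linear isometries of the action -/
def epsG (γ : Gam) (i : Fin 3) : E4 ≃ₗᵢ[ℝ] E4 := eps (sg γ i)

instance : MulAction Gam PP where
  smul γ x := act (epsG γ) x
  one_smul x := by
    show act (epsG 1) x = x
    apply inc_injective
    rw [inc_act, LL_apply]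
    simp only [epsG, sg_one, eps_apply]
    simp [inc]
  mul_smul γ δ x := by
    show act (epsG (γ * δ)) x = act (epsG γ) (act (epsG δ) x)
    apply inc_injective
    rw [inc_act, inc_act, inc_act, LL_apply, LL_apply, LL_apply]
    simp only [epsG, sg_mul, eps_apply, smul_smul]
    push_cast
    rfl

lemma smul_def (γ : Gam) (x : PP) : γ • x = act (epsG γ) x := rfl

lemma inc_smul (γ : Gam) (x : PP) : inc (γ • x) =
    (((γ.1 : ℤ) : ℝ) • (x.1 : E4), (((γ.2 : ℤ) : ℝ) • (x.2.1 : E4),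
      (((γ.1 * γ.2 : ℤˣ) : ℤ) : ℝ) • (x.2.2 : E4))) := by
  rw [smul_def, inc_act, LL_apply]
  simp only [epsG, eps_apply]
  rfl

lemma S3_ne_zero (x : S3) : (x : E4) ≠ 0 := by
  intro h
  have := norm_S3 x
  rw [h, norm_zero] at this
  exact zero_ne_one this

lemma sign_eq_one {u : ℤˣ} {v : E4} (hv : v ≠ 0) (h : ((u : ℤ) : ℝ) • v = v) : u = 1 := by
  rcases Int.units_eq_one_or u with rfl | rfl
  · rfl
  · exfalso
    apply hv
    have h1 : -v = v := by simpa using h
    have h2 : (2 : ℝ) • v = 0 := by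
      rw [two_smul]
      nth_rewrite 1 [← h1]
      exact neg_add_cancel v
    exact (smul_eq_zero.1 h2).resolve_left two_ne_zero

lemma smul_free (γ : Gam) (x : PP) (h : γ • x = x) : γ = 1 := by
  have h0 := congrArg inc h
  rw [inc_smul] at h0
  have h1 : ((γ.1 : ℤ) : ℝ) • (x.1 : E4) = (x.1 : E4) := congrArg Prod.fst h0
  have h2 : ((γ.2 : ℤ) : ℝ) • (x.2.1 : E4) = (x.2.1 : E4) := congrArg (fun z : VV => z.2.1) h0
  exact Prod.ext (sign_eq_one (S3_ne_zero _) h1) (sign_eq_one (S3_ne_zero _) h2)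

lemma hiso (γ : Gam) : ∃ f : Diffeomorph III III PP PP ∞, Pool.Agent.Y503.HC.IsIsometry gP f ∧
    ∀ x, f x = γ • x :=
  ⟨actD (epsG γ), actD_isometry _, fun _ => rfl⟩

/-- the quotient -/
theorem exists_quot : ∃ (N : Type) (_ : TopologicalSpace N)
    (_ : ChartedSpace (ModelProd (EuclideanSpace ℝ (Fin 3)) (ModelProd (EuclideanSpace ℝ (Fin 3))
      (EuclideanSpace ℝ (Fin 3)))) N) (_ : IsManifold III ∞ N)
    (_ : T2Space N) (g' : Pool.Agent.Y503.HC.Metric III N) (p : PP → N),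
      Pool.Agent.Y503.HC.IsQuotient Gam gP g' p := 
  Pool.Agent.Y503.HC.exists_quotient gP Gam hiso smul_free

/-! ### The topological properties of the quotient -/

instance instLPC (n : ℕ) : LocallyPathConnectedSpace (stdSimplex ℝ (Fin (n + 1))) :=
  (convex_stdSimplex ℝ (Fin (n + 1))).locallyPathConnectedSpace

instance instCS (n : ℕ) : ContractibleSpace (stdSimplex ℝ (Fin (n + 1))) :=
  (convex_stdSimplex ℝ (Fin (n + 1))).contractibleSpace ⟨_, single_mem_stdSimplex ℝ 0⟩

/-- the action by a group element as a continuous map -/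
def actC (γ : Gam) : C(PP, PP) := ⟨fun x => γ • x, (act_smooth (epsG γ)).continuous⟩

lemma actC_apply (γ : Gam) (x : PP) : actC γ x = γ • x := rfl

section

variable {N : Type} [TopologicalSpace N] {p : PP → N}

/-- the elements of the group -/
def gα : Gam := ((-1, 1) : ℤˣ × ℤˣ)
/-- the elements of the group -/
def gβ : Gam := ((1, -1) : ℤˣ × ℤˣ)

lemma Gam_cases (γ : Gam) : γ = 1 ∨ γ = gα ∨ γ = gβ ∨ γ = gα * gβ := by
  revert γ
  show ∀ γ : ℤˣ × ℤˣ, γ = (1 : ℤˣ × ℤˣ) ∨ γ = ((-1, 1) : ℤˣ × ℤˣ) ∨ γ = ((1, -1) : ℤˣ × ℤˣ) ∨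
    γ = ((-1, 1) : ℤˣ × ℤˣ) * ((1, -1) : ℤˣ × ℤˣ)
  decide

/-- the setting `Four` -/
def fourOf (hcov : IsCoveringMap p) (hs : Function.Surjective p)
    (hfib : ∀ x y : PP, p x = p y ↔ ∃ γ : Gam, γ • x = y) : Four PP N where
  p := ⟨p, hcov.continuous⟩
  a := actC gα
  b := actC gβ
  aa := by
    ext1 x
    show gα • gα • x = x
    rw [smul_smul]
    have : gα * gα = 1 := rfl
    rw [this, one_smul]
  bb := by
    ext1 x
    show gβ • gβ • x = x
    rw [smul_smul]
    have : gβ * gβ = 1 := rfl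
    rw [this, one_smul]
  ab := by
    ext1 x
    show gα • gβ • x = gβ • gα • x
    rw [smul_smul, smul_smul]
    rfl
  hpa := by
    ext1 x
    exact ((hfib x (gα • x)).2 ⟨_, rfl⟩).symm
  hpb := by
    ext1 x
    exact ((hfib x (gβ • x)).2 ⟨_, rfl⟩).symm
  lift n σ := by
    obtain ⟨e, he⟩ := hs (σ (stdSimplex.vertex 0))
    obtain ⟨F, ⟨-, hF⟩, -⟩ := hcov.existsUnique_continuousMap_lifts σ (stdSimplex.vertex 0) e he
    refine ⟨F, ?_⟩
    ext1 x
    exact congrFun hF x
  fib n τ τ' h := by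
    obtain ⟨γ, hγ⟩ := (hfib (τ (stdSimplex.vertex 0)) (τ' (stdSimplex.vertex 0))).1
      (DFunLike.congr_fun h _)
    have h1 : τ' = (actC γ).comp τ := by
      apply DFunLike.coe_injective
      refine hcov.eq_of_comp_eq τ'.continuous ((actC γ).comp τ).continuous ?_
        (stdSimplex.vertex 0) hγ.symm
      funext x
      have h2 : p (τ x) = p (τ' x) := DFunLike.congr_fun h x
      show p (τ' x) = p (γ • τ x)
      rw [← h2]
      exact (hfib _ _).2 ⟨γ, rfl⟩
    rcases Gam_cases γ with rfl | rfl | rfl | rfl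
    · left
      rw [h1]
      ext1 x
      exact one_smul Gam (τ x)
    · exact Or.inr (Or.inl h1)
    · exact Or.inr (Or.inr (Or.inl h1))
    · refine Or.inr (Or.inr (Or.inr ?_))
      rw [h1]
      ext1 x
      exact mul_smul gα gβ (τ x)
  fa n τ h := by
    have h1 := smul_free gα (τ (stdSimplex.vertex 0)) (DFunLike.congr_fun h _)
    exact absurd h1 (by
      show ((-1, 1) : ℤˣ × ℤˣ) ≠ 1
      decide)
  fb n τ h := by
    have h1 := smul_free gβ (τ (stdSimplex.vertex 0)) (DFunLike.congr_fun h _)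
    exact absurd h1 (by
      show ((1, -1) : ℤˣ × ℤˣ) ≠ 1
      decide)
  fab n τ h := by
    have h1 := smul_free (gα * gβ) (τ (stdSimplex.vertex 0)) (by
      rw [mul_smul]
      exact DFunLike.congr_fun h _)
    exact absurd h1 (by
      show ((-1, 1) : ℤˣ × ℤˣ) * ((1, -1) : ℤˣ × ℤˣ) ≠ 1
      decide)

theorem totalBetti_quot (hcov : IsCoveringMap p) (hs : Function.Surjective p)
    (hfib : ∀ x y : PP, p x = p y ↔ ∃ γ : Gam, γ • x = y) : 10 ≤ totalBetti N :=
  Four.totalBetti_ge acyc_PP (fourOf hcov hs hfib) rfl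

end

end Pool.Agent.K6.H67.SY
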