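import Pool.Agent.K6.H67.SY.Defs
import Pool.Agent.Helper922.HB.Sc.Sing

/-!
The cochains of a quotient by a free action of the four-group.
-/

set_option autoImplicit false

open scoped Manifold ContDiff

noncomputable section

namespace Pool.Agent.K6.H67.SY

variable {X Y : Type} [TopologicalSpace X] [TopologicalSpace Y]

/-- pullback of cochains -/
def pbk (f : C(X, Y)) (n : ℕ) : Cochain Y n →ₗ[ZMod 2] Cochain X n where
  toFun c σ := c (f.comp σ)
  map_add' _ _ := rfl
  map_smul' _ _ := rfl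

lemma pbk_apply (f : C(X, Y)) {n : ℕ} (c : Cochain Y n) (σ : Simp X n) :
    pbk f n c σ = c (f.comp σ) := rfl

lemma delta_pbk (f : C(X, Y)) (n : ℕ) (c : Cochain Y n) :
    delta X n (pbk f n c) = pbk f (n + 1) (delta Y n c) := rfl

lemma add_self' {n : ℕ} (c : Cochain X n) : c + c = 0 := by
  funext σ
  exact CharTwo.add_self_eq_zero _

lemma add_cancel' {n : ℕ} (c d : Cochain X n) : c + (c + d) = d := by
  rw [← add_assoc, add_self', zero_add]

lemma eq_of_add {n : ℕ} {c d : Cochain X n} (h : c + d = 0) : c = d := by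
  rw [← add_cancel' c d, h, add_zero]

open Pool.Agent.Helper922.HB.Sc in
lemma delta_eq (n : ℕ) (c : Cochain X n) : delta X n c = altd (ZMod 2) (sface (X := X)) n c := by
  funext σ
  rw [altd_apply]
  show ∑ i : Fin (n + 2), c (face i σ) = _
  apply Finset.sum_congr rfl
  intro i _
  have : (-1 : ZMod 2) = 1 := rfl
  rw [this, one_pow, one_mul]
  rfl

open Pool.Agent.Helper922.HB.Sc in
lemma delta_delta (n : ℕ) (c : Cochain X n) : delta X (n + 1) (delta X n c) = 0 := by
  rw [delta_eq, delta_eq]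
  exact altd_altd _ (fun n i j σ h => sface_sface n i j σ h) n c

/-- The setting: `p : P → N` with a four-group of deck maps `1, a, b, ab`. -/
structure Four (P N : Type) [TopologicalSpace P] [TopologicalSpace N] where
  p : C(P, N)
  a : C(P, P)
  b : C(P, P)
  aa : a.comp a = ContinuousMap.id P
  bb : b.comp b = ContinuousMap.id P
  ab : a.comp b = b.comp a
  hpa : p.comp a = p
  hpb : p.comp b = p
  lift : ∀ (n : ℕ) (σ : Simp N n), ∃ τ : Simp P n, p.comp τ = σ
  fib : ∀ (n : ℕ) (τ τ' : Simp P n), p.comp τ = p.comp τ' →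
    τ' = τ ∨ τ' = a.comp τ ∨ τ' = b.comp τ ∨ τ' = a.comp (b.comp τ)
  fa : ∀ (n : ℕ) (τ : Simp P n), a.comp τ ≠ τ
  fb : ∀ (n : ℕ) (τ : Simp P n), b.comp τ ≠ τ
  fab : ∀ (n : ℕ) (τ : Simp P n), a.comp (b.comp τ) ≠ τ

namespace Four

variable {P N : Type} [TopologicalSpace P] [TopologicalSpace N] (F : Four P N)

/-- the same setting with the roles of `a` and `b` exchanged -/
def swap : Four P N where
  p := F.p
  a := F.b
  b := F.a
  aa := F.bb
  bb := F.aa
  ab := F.ab.symm
  hpa := F.hpb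
  hpb := F.hpa
  lift := F.lift
  fib n τ τ' h := by
    rcases F.fib n τ τ' h with h | h | h | h
    · exact Or.inl h
    · exact Or.inr (Or.inr (Or.inl h))
    · exact Or.inr (Or.inl h)
    · refine Or.inr (Or.inr (Or.inr ?_))
      rw [h, ← ContinuousMap.comp_assoc, F.ab, ContinuousMap.comp_assoc]
  fa := F.fb
  fb := F.fa
  fab n τ := by
    rw [← ContinuousMap.comp_assoc, ← F.ab, ContinuousMap.comp_assoc]
    exact F.fab n τ

variable {n : ℕ}

/-- action of `a` on simplices -/
def A (τ : Simp P n) : Simp P n := F.a.comp τ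
/-- action of `b` on simplices -/
def B (τ : Simp P n) : Simp P n := F.b.comp τ

lemma AA (τ : Simp P n) : F.A (F.A τ) = τ := by
  unfold A
  rw [← ContinuousMap.comp_assoc, F.aa, ContinuousMap.id_comp]

lemma BB (τ : Simp P n) : F.B (F.B τ) = τ := by
  unfold B
  rw [← ContinuousMap.comp_assoc, F.bb, ContinuousMap.id_comp]

lemma AB (τ : Simp P n) : F.A (F.B τ) = F.B (F.A τ) := by
  unfold A B
  rw [← ContinuousMap.comp_assoc, F.ab, ContinuousMap.comp_assoc]

lemma pA (τ : Simp P n) : F.p.comp (F.A τ) = F.p.comp τ := by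
  unfold A
  rw [← ContinuousMap.comp_assoc, F.hpa]

lemma pB (τ : Simp P n) : F.p.comp (F.B τ) = F.p.comp τ := by
  unfold B
  rw [← ContinuousMap.comp_assoc, F.hpb]

lemma A_ne (τ : Simp P n) : F.A τ ≠ τ := F.fa n τ
lemma B_ne (τ : Simp P n) : F.B τ ≠ τ := F.fb n τ
lemma AB_ne (τ : Simp P n) : F.A (F.B τ) ≠ τ := F.fab n τ

/-- chosen lifts -/
def r (σ : Simp N n) : Simp P n := (F.lift n σ).choose

lemma p_r (σ : Simp N n) : F.p.comp (F.r σ) = σ := (F.lift n σ).choose_spec

lemma cases (τ : Simp P n) : τ = F.r (F.p.comp τ) ∨ τ = F.A (F.r (F.p.comp τ)) ∨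
    τ = F.B (F.r (F.p.comp τ)) ∨ τ = F.A (F.B (F.r (F.p.comp τ))) :=
  F.fib n _ τ (F.p_r _)

/-- The half `{r, a r}` of the simplices; it is invariant under `a`. -/
def Hb (τ : Simp P n) : Prop := τ = F.r (F.p.comp τ) ∨ τ = F.A (F.r (F.p.comp τ))

lemma Hb_A (τ : Simp P n) : F.Hb (F.A τ) ↔ F.Hb τ := by
  unfold Hb
  rw [F.pA]
  constructor
  · rintro (h | h)
    · right; rw [← h, F.AA]
    · left
      have h2 := congrArg F.A h
      rwa [F.AA, F.AA] at h2
  · rintro (h | h)
    · right; exact congrArg F.A h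
    · left
      have h2 := congrArg F.A h
      rwa [F.AA] at h2

lemma Hb_B (τ : Simp P n) : F.Hb (F.B τ) ↔ ¬ F.Hb τ := by
  unfold Hb
  rw [F.pB]
  set ρ := F.r (F.p.comp τ) with hρ
  have hc := F.cases τ
  rw [← hρ] at hc
  constructor
  · rintro h1 h2
    rcases h1 with h1 | h1 <;> rcases h2 with h2 | h2
    · exact F.B_ne τ (h1.trans h2.symm)
    · have : F.A (F.B τ) = τ := by rw [h1, h2]
      exact F.AB_ne τ this
    · have : F.A (F.B τ) = τ := by rw [h1, h2, F.AA]
      exact F.AB_ne τ this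
    · exact F.B_ne τ (h1.trans h2.symm)
  · intro h
    rcases hc with hc | hc | hc | hc
    · exact absurd (Or.inl hc) h
    · exact absurd (Or.inr hc) h
    · left; rw [hc, F.BB]
    · right; rw [hc, ← F.AB, F.BB]

open Classical in
/-- restriction of a cochain to the half -/
def cut (c : Cochain P n) : Cochain P n := fun τ => if F.Hb τ then c τ else 0

/-- invariance under `a` -/
def InvA (c : Cochain P n) : Prop := ∀ τ, c (F.A τ) = c τ
/-- invariance under `b` -/
def InvB (c : Cochain P n) : Prop := ∀ τ, c (F.B τ) = c τ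

/-- `1 + b` -/
def TB (c : Cochain P n) : Cochain P n := fun τ => c τ + c (F.B τ)
/-- `1 + a` -/
def TA (c : Cochain P n) : Cochain P n := fun τ => c τ + c (F.A τ)

lemma cut_invA {c : Cochain P n} (h : F.InvA c) : F.InvA (F.cut c) := by
  intro τ
  unfold cut
  by_cases hb : F.Hb τ
  · rw [if_pos hb, if_pos ((F.Hb_A τ).2 hb), h τ]
  · rw [if_neg hb, if_neg (fun h1 => hb ((F.Hb_A τ).1 h1))]

lemma TB_cut {c : Cochain P n} (h : F.InvB c) : F.TB (F.cut c) = c := by
  funext τ
  unfold TB cut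
  by_cases hb : F.Hb τ
  · rw [if_pos hb, if_neg (fun h1 => (F.Hb_B τ).1 h1 hb), add_zero]
  · rw [if_neg hb, if_pos ((F.Hb_B τ).2 hb), h τ, zero_add]

lemma delta_TB (c : Cochain P n) : delta P n (F.TB c) = F.TB (delta P n c) := by
  funext τ
  have h1 : F.TB c = c + pbk F.b n c := rfl
  rw [h1, map_add, delta_pbk]
  rfl

lemma delta_TA (c : Cochain P n) : delta P n (F.TA c) = F.TA (delta P n c) :=
  F.swap.delta_TB c

lemma TB_invB (c : Cochain P n) : F.InvB (F.TB c) := by
  intro τ
  unfold TB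
  rw [F.BB, add_comm]

lemma TB_invA {c : Cochain P n} (h : F.InvA c) : F.InvA (F.TB c) := by
  intro τ
  unfold TB
  rw [h, ← F.AB, h]

lemma TA_invA (c : Cochain P n) : F.InvA (F.TA c) := F.swap.TB_invB c

lemma TA_invB {c : Cochain P n} (h : F.InvB c) : F.InvB (F.TA c) := F.swap.TB_invA h

lemma TB_zero_iff {c : Cochain P n} : F.TB c = 0 ↔ F.InvB c := by
  constructor
  · intro h τ
    have := congrFun h τ
    unfold TB at this
    have h2 : c τ + c (F.B τ) = 0 := this
    have h3 : c (F.B τ) = c τ := by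
      have : c τ + c τ = 0 := CharTwo.add_self_eq_zero _
      rw [← this] at h2
      exact add_left_cancel h2
    exact h3
  · intro h
    funext τ
    unfold TB
    rw [h τ]
    exact CharTwo.add_self_eq_zero _

lemma TA_zero_iff {c : Cochain P n} : F.TA c = 0 ↔ F.InvA c := F.swap.TB_zero_iff

lemma TB_add (c d : Cochain P n) : F.TB (c + d) = F.TB c + F.TB d := by
  funext τ
  simp only [TB, Pi.add_apply]
  ring

lemma TA_add (c d : Cochain P n) : F.TA (c + d) = F.TA c + F.TA d := F.swap.TB_add c d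

lemma invB_add {c d : Cochain P n} (hc : F.InvB c) (hd : F.InvB d) : F.InvB (c + d) := by
  intro τ
  simp only [Pi.add_apply, hc τ, hd τ]

lemma invA_add {c d : Cochain P n} (hc : F.InvA c) (hd : F.InvA d) : F.InvA (c + d) :=
  F.swap.invB_add hc hd

lemma delta_invB {c : Cochain P n} (h : F.InvB c) : F.InvB (delta P n c) := by
  rw [← F.TB_zero_iff, ← F.delta_TB, F.TB_zero_iff.2 h, map_zero]

lemma delta_invA {c : Cochain P n} (h : F.InvA c) : F.InvA (delta P n c) := F.swap.delta_invB h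

/-- invariant cochains come from the quotient -/
lemma exists_down {c : Cochain P n} (ha : F.InvA c) (hb : F.InvB c) :
    ∃ c' : Cochain N n, pbk F.p n c' = c := by
  refine ⟨fun σ => c (F.r σ), ?_⟩
  funext τ
  rw [pbk_apply]
  rcases F.cases τ with h | h | h | h
  · rw [← h]
  · conv_rhs => rw [h]
    rw [ha]
  · conv_rhs => rw [h]
    rw [hb]
  · conv_rhs => rw [h]
    rw [ha, hb]

lemma pb_invA (c : Cochain N n) : F.InvA (pbk F.p n c) := by
  intro τ
  rw [pbk_apply, F.pA, pbk_apply]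

lemma pb_invB (c : Cochain N n) : F.InvB (pbk F.p n c) := by
  intro τ
  rw [pbk_apply, F.pB, pbk_apply]

lemma pb_inj {c d : Cochain N n} (h : pbk F.p n c = pbk F.p n d) : c = d := by
  funext σ
  have := congrFun h (F.r σ)
  rwa [pbk_apply, pbk_apply, F.p_r] at this

/-- coboundaries of the complex of the cochains invariant under `b` -/
def Bb : ∀ q : ℕ, Cochain P q → Prop
  | 0, c => c = 0
  | q + 1, c => ∃ m : Cochain P q, F.InvB m ∧ delta P q m = c

/-- the powers of the characteristic class of the covering by `b` -/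
def u : ∀ q : ℕ, Cochain P q
  | 0 => fun _ => 1
  | q + 1 => delta P q (F.cut (u q))

lemma u_spec (q : ℕ) : F.InvA (F.u q) ∧ F.InvB (F.u q) ∧ delta P q (F.u q) = 0 := by
  induction q with
  | zero =>
    refine ⟨fun _ => rfl, fun _ => rfl, ?_⟩
    funext σ
    show ∑ i : Fin 2, (1 : ZMod 2) = 0
    simp
    rfl
  | succ q ih =>
    obtain ⟨h1, h2, h3⟩ := ih
    refine ⟨F.delta_invA (F.cut_invA h1), ?_, delta_delta _ _⟩
    show F.InvB (delta P q (F.cut (F.u q)))
    rw [← F.TB_zero_iff, ← F.delta_TB, F.TB_cut h2, h3]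

end Four

end Pool.Agent.K6.H67.SY
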