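import Mathlib

/-!
A combinatorial lemma on sets of triples of lines.
-/

set_option autoImplicit false

namespace Pool.Agent.K6.H67.SY

/-- A finite set of triples of lines of which any two distinct ones agree in exactly one
coordinate and are orthogonal in the two others has at most four elements. -/
theorem card_triples_le {L : Type} (orth : L → L → Prop) (hirr : ∀ a, ¬ orth a a) (P : L → Prop)
    (hmax : ∀ S : Finset L, (∀ a ∈ S, P a) → (∀ a ∈ S, ∀ b ∈ S, a ≠ b → orth a b) → S.card ≤ 4)
    (T : Finset (Fin 3 → L)) (hP : ∀ t ∈ T, ∀ i, P (t i))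
    (hT : ∀ t ∈ T, ∀ t' ∈ T, t ≠ t' → ∃ i, t i = t' i ∧ ∀ j, j ≠ i → orth (t j) (t' j)) :
    T.card ≤ 4 := by
  classical
  -- the index of agreement is determined
  have hidx : ∀ u ∈ T, ∀ v ∈ T, u ≠ v → ∀ k, u k = v k → ∀ j, j ≠ k → orth (u j) (v j) := by
    intro u hu v hv huv k hk j hj
    obtain ⟨m, hm1, hm2⟩ := hT u hu v hv huv
    by_cases hkm : k = m
    · subst hkm; exact hm2 j hj
    · have := hm2 k hkm
      rw [hk] at this
      exact absurd this (hirr _)
  by_cases hA : ∃ i, ∃ t ∈ T, ∃ t' ∈ T, ∃ t'' ∈ T, t ≠ t' ∧ t' ≠ t'' ∧ t ≠ t'' ∧ t i = t' i ∧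
      t i = t'' i
  · obtain ⟨i, t, ht, t', ht', t'', ht'', h1, h2, h3, h4, h5⟩ := hA
    have hall : ∀ u ∈ T, u i = t i := by
      intro u hu
      by_contra hne
      have e1 : t ≠ u := by rintro rfl; exact hne rfl
      have e2 : t' ≠ u := by rintro rfl; exact hne h4.symm
      have e3 : t'' ≠ u := by rintro rfl; exact hne h5.symm
      obtain ⟨j, hj1, hj2⟩ := hT t ht u hu e1
      obtain ⟨k, hk1, hk2⟩ := hT t' ht' u hu e2
      obtain ⟨l, hl1, hl2⟩ := hT t'' ht'' u hu e3
      have hji : j ≠ i := by rintro rfl; exact hne hj1.symm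
      have hki : k ≠ i := by rintro rfl; exact hne (by rw [← hk1, h4])
      have hli : l ≠ i := by rintro rfl; exact hne (by rw [← hl1, h5])
      have hkj : k ≠ j := by
        rintro rfl
        have := hidx t ht t' ht' h1 i h4 k hki
        rw [hj1, hk1] at this
        exact hirr _ this
      have hlj : l ≠ j := by
        rintro rfl
        have := hidx t ht t'' ht'' h3 i h5 l hli
        rw [hj1, hl1] at this
        exact hirr _ this
      have hkl : k = l := by omega
      subst hkl
      have := hidx t' ht' t'' ht'' h2 i (by rw [← h4, h5]) k hki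
      rw [hk1, hl1] at this
      exact hirr _ this
    obtain ⟨j, hj⟩ : ∃ j : Fin 3, j ≠ i := exists_ne i
    have hinj : Set.InjOn (fun u : Fin 3 → L => u j) T := by
      intro u hu v hv huv
      by_contra hne
      have := hidx u hu v hv hne i (by rw [hall u hu, hall v hv]) j hj
      rw [show u j = v j from huv] at this
      exact hirr _ this
    rw [← Finset.card_image_of_injOn hinj]
    apply hmax
    · intro a ha
      obtain ⟨u, hu, rfl⟩ := Finset.mem_image.1 ha
      exact hP u hu j
    · intro a ha b hb hab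
      obtain ⟨u, hu, rfl⟩ := Finset.mem_image.1 ha
      obtain ⟨v, hv, rfl⟩ := Finset.mem_image.1 hb
      exact hidx u hu v hv (by rintro rfl; exact hab rfl) i (by rw [hall u hu, hall v hv]) j hj
  · push Not at hA
    rcases T.eq_empty_or_nonempty with rfl | ⟨t, ht⟩
    · simp
    -- the map to the index of agreement is injective
    have hex : ∀ u : Fin 3 → L, ∃ i : Fin 3, u ∈ T.erase t → t i = u i := by
      intro u
      by_cases hu : u ∈ T.erase t
      · obtain ⟨i, hi, -⟩ := hT t ht u (Finset.mem_of_mem_erase hu) (Finset.ne_of_mem_erase hu).symm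
        exact ⟨i, fun _ => hi⟩
      · exact ⟨0, fun h => absurd h hu⟩
    choose c hc using hex
    have hinj : Set.InjOn c (T.erase t : Finset (Fin 3 → L)) := by
      intro u hu v hv huv
      by_contra hne
      have hu' : u ∈ T.erase t := hu
      have hv' : v ∈ T.erase t := hv
      refine hA (c u) t ht u (Finset.mem_of_mem_erase hu') v (Finset.mem_of_mem_erase hv')
        (Finset.ne_of_mem_erase hu').symm hne (Finset.ne_of_mem_erase hv').symm (hc u hu') ?_
      rw [huv]
      exact hc v hv'
    have h1 : (T.erase t).card ≤ (Finset.univ : Finset (Fin 3)).card :=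
      Finset.card_le_card_of_injOn c (fun _ _ => Finset.mem_univ _) hinj
    rw [Finset.card_fin] at h1
    rw [← Finset.card_erase_add_one ht]
    omega

end Pool.Agent.K6.H67.SY
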