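import Mathlib

/-!
Singular cohomology mod 2, compact Riemannian symmetric spaces, antipodal sets.
-/

set_option autoImplicit false

open scoped Manifold ContDiff
open Manifold Bundle

noncomputable section

namespace Pool.Agent.K6.H67.SY

/-! ### Singular cohomology with coefficients in the field with two elements -/

section Coh

variable (X : Type) [TopologicalSpace X]

/-- The singular `n`-simplices of `X`: continuous maps from the standard `n`-simplex to `X`. -/
abbrev Simp (n : ℕ) : Type := C(stdSimplex ℝ (Fin (n + 1)), X)

variable {X}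

/-- The `i`-th face of a singular simplex: its restriction to the face opposite to the vertex
`i`. -/
def face {n : ℕ} (i : Fin (n + 2)) (σ : Simp X (n + 1)) : Simp X n :=
  σ.comp ⟨stdSimplex.map i.succAbove, stdSimplex.continuous_map _⟩

variable (X)

/-- Singular `n`-cochains with coefficients in `ℤ/2`. -/
abbrev Cochain (n : ℕ) : Type := Simp X n → ZMod 2

/-- The coboundary: `(δ c)(σ)` is the sum of the values of `c` on the faces of `σ`. -/
def delta (n : ℕ) : Cochain X n →ₗ[ZMod 2] Cochain X (n + 1) where
  toFun c σ := ∑ i : Fin (n + 2), c (face i σ)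
  map_add' b c := by
    funext σ
    simp only [Pi.add_apply, Finset.sum_add_distrib]
  map_smul' a c := by
    funext σ
    simp only [Pi.smul_apply, Finset.smul_sum, RingHom.id_apply]

/-- Cocycles: the kernel of `δ`. -/
def cocycles (n : ℕ) : Submodule (ZMod 2) (Cochain X n) := LinearMap.ker (delta X n)

/-- Coboundaries: the image of `δ` (zero in degree `0`). -/
def coboundaries : ∀ n : ℕ, Submodule (ZMod 2) (Cochain X n)
  | 0 => ⊥
  | n + 1 => LinearMap.range (delta X n)

/-- The singular cohomology `H^n(X; ℤ/2)`: cocycles modulo coboundaries. -/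
abbrev Cohomology (n : ℕ) : Type :=
  cocycles X n ⧸ (coboundaries X n).submoduleOf (cocycles X n)

/-- The total mod 2 Betti number `dim H(X, ℤ/2) = ∑ₙ dim H^n(X; ℤ/2)`, a natural number or `∞`:
the supremum of the partial sums. -/
def totalBetti : ℕ∞ :=
  ⨆ N : ℕ, ∑ n ∈ Finset.range N, Cardinal.toENat (Module.rank (ZMod 2) (Cohomology X n))

end Coh

/-! ### Riemannian symmetric spaces -/

section Sym

variable {E : Type} [NormedAddCommGroup E] [NormedSpace ℝ E] {H : Type} [TopologicalSpace H]
  {I : ModelWithCorners ℝ E H}
  {M : Type} [TopologicalSpace M] [ChartedSpace H M] [IsManifold I ∞ M]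

/-- The diffeomorphism `f` of `M` is an isometry of the Riemannian metric `g`. -/
def IsIsometry (g : ContMDiffRiemannianMetric I ∞ E (fun x : M => TangentSpace I x))
    (f : Diffeomorph I I M M ∞) : Prop :=
  ∀ (x : M) (v w : TangentSpace I x),
    g.inner (f x) (mfderiv I I f x v) (mfderiv I I f x w) = g.inner x v w

/-- `(M, g)` is a Riemannian symmetric space with geodesic symmetries `s x`, `x ∈ M`: the
diffeomorphism `s x` is an isometry which fixes `x` and has differential `-id` on `T_x M`. -/
structure IsSymmetricSpace
    (g : ContMDiffRiemannianMetric I ∞ E (fun x : M => TangentSpace I x))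
    (s : M → Diffeomorph I I M M ∞) : Prop where
  isometry : ∀ x, IsIsometry g (s x)
  fixed : ∀ x, s x x = x
  differential : ∀ (x : M) (v : E), (mfderiv I I (s x) x : E →L[ℝ] E) v = -v

/-- A subset `A` of `M` is antipodal if `s x y = y` for all `x`, `y` in `A`. -/
def IsAntipodal (s : M → Diffeomorph I I M M ∞) (A : Set M) : Prop :=
  ∀ x ∈ A, ∀ y ∈ A, s x y = y

/-- The two-number: the maximal cardinality of an antipodal subset of `M`, as an element of
`ℕ∞`. -/
def twoNumber (s : M → Diffeomorph I I M M ∞) : ℕ∞ :=
  ⨆ A : {A : Set M // IsAntipodal s A}, A.1.encard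

end Sym

end Pool.Agent.K6.H67.SY
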