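import Pool.Agent.K6.H67.SY.Defs

/-!
Descending isometries along Riemannian coverings.
-/

set_option autoImplicit false

open scoped Manifold ContDiff Topology
open Set Manifold Module Bundle

noncomputable section

namespace Pool.Agent.K6.H67.SY

variable {E : Type} [NormedAddCommGroup E] [NormedSpace ℝ E] {H : Type} [TopologicalSpace H]
  {I : ModelWithCorners ℝ E H}
  {M : Type} [TopologicalSpace M] [ChartedSpace H M] [IsManifold I ∞ M]
  {N : Type} [TopologicalSpace N] [ChartedSpace H N] [IsManifold I ∞ N]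
  {p : M → N}

/-- the map induced on the quotient -/
def desc (hs : Function.Surjective p) (f : M → M) (y : N) : N := p (f (Function.surjInv hs y))

omit [TopologicalSpace M] [ChartedSpace H M] [IsManifold I ∞ M] [TopologicalSpace N]
  [ChartedSpace H N] [IsManifold I ∞ N] in
lemma desc_apply (hs : Function.Surjective p) {f : M → M}
    (hf : ∀ x y, p x = p y → p (f x) = p (f y)) (x : M) : desc hs f (p x) = p (f x) :=
  hf _ _ (Function.surjInv_eq hs (p x))

omit [IsManifold I ∞ M] [IsManifold I ∞ N] in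
lemma desc_smooth (hl : IsLocalDiffeomorph I I ∞ p) (hs : Function.Surjective p) {f : M → M}
    (hf : ∀ x y, p x = p y → p (f x) = p (f y)) (hfs : ContMDiff I I ∞ f) :
    ContMDiff I I ∞ (desc hs f) := by
  intro y
  obtain ⟨x, rfl⟩ := hs y
  set ℓ := (hl x).localInverse with hℓ
  have hℓx : ℓ (p x) = x := (hl x).localInverse_left_inv (hl x).localInverse_mem_target
  have h1 : ContMDiffAt I I ∞ ℓ (p x) := (hl x).localInverse_contMDiffAt
  have h2 : ContMDiffAt I I ∞ f (ℓ (p x)) := hfs _
  have h3 : ContMDiffAt I I ∞ p (f (ℓ (p x))) := hl.contMDiff _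
  have h4 : ContMDiffAt I I ∞ (fun z => p (f (ℓ z))) (p x) := h3.comp (p x) (h2.comp (p x) h1)
  refine h4.congr_of_eventuallyEq ?_
  have hsrc : ℓ.source ∈ 𝓝 (p x) :=
    (hl x).localInverse_open_source.mem_nhds (hl x).localInverse_mem_source
  filter_upwards [hsrc] with z hz
  have h5 : p (ℓ z) = z := (hl x).localInverse_right_inv hz
  rw [← desc_apply hs hf, h5]

/-- the diffeomorphism induced on the quotient -/
def descD (hl : IsLocalDiffeomorph I I ∞ p) (hs : Function.Surjective p)
    (f : Diffeomorph I I M M ∞) (hf : ∀ x y, p x = p y → p (f x) = p (f y))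
    (hf' : ∀ x y, p x = p y → p (f.symm x) = p (f.symm y)) : Diffeomorph I I N N ∞ where
  toFun := desc hs f
  invFun := desc hs f.symm
  left_inv y := by
    obtain ⟨x, rfl⟩ := hs y
    rw [desc_apply hs hf, desc_apply hs hf', f.symm_apply_apply]
  right_inv y := by
    obtain ⟨x, rfl⟩ := hs y
    rw [desc_apply hs hf', desc_apply hs hf, f.apply_symm_apply]
  contMDiff_toFun := desc_smooth hl hs hf f.contMDiff
  contMDiff_invFun := desc_smooth hl hs hf' f.symm.contMDiff

omit [IsManifold I ∞ M] [IsManifold I ∞ N] in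
lemma descD_apply (hl : IsLocalDiffeomorph I I ∞ p) (hs : Function.Surjective p)
    (f : Diffeomorph I I M M ∞) (hf : ∀ x y, p x = p y → p (f x) = p (f y))
    (hf' : ∀ x y, p x = p y → p (f.symm x) = p (f.symm y)) (x : M) :
    descD hl hs f hf hf' (p x) = p (f x) := desc_apply hs hf x

/-- the differential, as a map of the model space -/
def Dp (p : M → N) (x : M) : E →L[ℝ] E := mfderiv I I p x

omit [IsManifold I ∞ M] [IsManifold I ∞ N] in
lemma Dp_surjective (hl : IsLocalDiffeomorph I I ∞ p) (x : M) :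
    Function.Surjective (Dp (I := I) p x) := by
  have h := (hl x).mfderivToContinuousLinearEquiv_coe (by simp)
  intro v
  obtain ⟨w, hw⟩ := ((hl x).mfderivToContinuousLinearEquiv (by simp)).surjective v
  refine ⟨w, ?_⟩
  have h2 := congrArg (fun L : E →L[ℝ] E => L w) h
  exact h2.symm.trans hw

omit [IsManifold I ∞ M] [IsManifold I ∞ N] in
lemma Dp_comm (hl : IsLocalDiffeomorph I I ∞ p) {f : M → M} {F : N → N}
    (hf : ContMDiff I I ∞ f) (hF : ContMDiff I I ∞ F) (h : ∀ x, F (p x) = p (f x)) (x : M) (v : E) :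
    Dp (I := I) F (p x) (Dp (I := I) p x v) = Dp (I := I) p (f x) (Dp (I := I) f x v) := by
  have e1 := mfderiv_comp x ((hF (p x)).mdifferentiableAt (by simp))
    ((hl.contMDiff x).mdifferentiableAt (by simp))
  have e2 := mfderiv_comp x ((hl.contMDiff (f x)).mdifferentiableAt (by simp))
    ((hf x).mdifferentiableAt (by simp))
  have e3 : F ∘ p = p ∘ f := funext h
  rw [e3] at e1
  have e4 := e1.symm.trans e2
  exact congrArg (fun L : E →L[ℝ] E => L v) e4

theorem desc_isometry {g : ContMDiffRiemannianMetric I ∞ E (fun x : M => TangentSpace I x)}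
    {g' : ContMDiffRiemannianMetric I ∞ E (fun x : N => TangentSpace I x)}
    (hl : IsLocalDiffeomorph I I ∞ p) (hs : Function.Surjective p)
    (hg : ∀ (x : M) (v w : TangentSpace I x),
      g'.inner (p x) (mfderiv I I p x v) (mfderiv I I p x w) = g.inner x v w)
    {f : Diffeomorph I I M M ∞} {F : Diffeomorph I I N N ∞} (h : ∀ x, F (p x) = p (f x))
    (hf : IsIsometry g f) : IsIsometry g' F := by
  intro y v w
  obtain ⟨x, rfl⟩ := hs y
  obtain ⟨v', hv'⟩ := Dp_surjective hl x v
  obtain ⟨w', hw'⟩ := Dp_surjective hl x w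
  have hg2 : ∀ (x : M) (v w : E), (g'.inner (p x) : E →L[ℝ] E →L[ℝ] ℝ) (Dp (I := I) p x v)
      (Dp (I := I) p x w) = (g.inner x : E →L[ℝ] E →L[ℝ] ℝ) v w := hg
  have hf2 : ∀ (x : M) (v w : E), (g.inner (f x) : E →L[ℝ] E →L[ℝ] ℝ) (Dp (I := I) f x v)
      (Dp (I := I) f x w) = (g.inner x : E →L[ℝ] E →L[ℝ] ℝ) v w := hf
  have key : ∀ (v w : E), (g'.inner (F (p x)) : E →L[ℝ] E →L[ℝ] ℝ)
      (Dp (I := I) F (p x) (Dp (I := I) p x v)) (Dp (I := I) F (p x) (Dp (I := I) p x w)) =
      (g'.inner (p x) : E →L[ℝ] E →L[ℝ] ℝ) (Dp (I := I) p x v) (Dp (I := I) p x w) := by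
    intro v w
    rw [Dp_comm hl f.contMDiff F.contMDiff h, Dp_comm hl f.contMDiff F.contMDiff h, h, hg2, hf2,
      hg2]
  have := key v' w'
  rw [hv', hw'] at this
  exact this

omit [IsManifold I ∞ M] [IsManifold I ∞ N] in
theorem desc_differential (hl : IsLocalDiffeomorph I I ∞ p)
    {f : Diffeomorph I I M M ∞} {F : Diffeomorph I I N N ∞} (h : ∀ x, F (p x) = p (f x)) {x : M}
    (hfx : f x = x) (hf : ∀ v : E, (mfderiv I I f x : E →L[ℝ] E) v = -v) (v : E) :
    (mfderiv I I F (p x) : E →L[ℝ] E) v = -v := by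
  obtain ⟨v', hv'⟩ := Dp_surjective hl x v
  have h1 := Dp_comm hl f.contMDiff F.contMDiff h x v'
  have h2 : Dp (I := I) f x v' = -v' := hf v'
  rw [h2, hfx, hv'] at h1
  have h3 : Dp (I := I) p x (-v') = - Dp (I := I) p x v' := map_neg _ _
  rw [h3, hv'] at h1
  exact h1

end Pool.Agent.K6.H67.SY
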