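import Pool.Agent.K6.H67.SY.Act
import Pool.Agent.K6.H67.SY.Desc
import Pool.Agent.K6.H67.SY.Comb

/-!
The quotient of the product of three 3-spheres as a symmetric space, and its two-number.
-/

set_option autoImplicit false

open scoped Manifold ContDiff Topology
open Set Manifold Module Bundle

noncomputable section

namespace Pool.Agent.K6.H67.SY

/-! ### Lines -/

lemma inner_self_S3 (a : S3) : inner ℝ (a : E4) (a : E4) = 1 := by
  rw [real_inner_self_eq_norm_sq, norm_S3]; norm_num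

/-- the coordinates of a point of the product -/
def cd (x : PP) : Fin 3 → S3 := ![x.1, x.2.1, x.2.2]

lemma cd_injective : Function.Injective cd := by
  intro x y h
  exact Prod.ext (congrFun h 0) (Prod.ext (congrFun h 1) (congrFun h 2))

lemma cd_act (L : Fin 3 → (E4 ≃ₗᵢ[ℝ] E4)) (x : PP) (i : Fin 3) :
    ((cd (act L x) i : S3) : E4) = L i (cd x i) := by
  fin_cases i <;> rfl

lemma cd_smul (γ : Gam) (x : PP) (i : Fin 3) :
    ((cd (γ • x) i : S3) : E4) = ((sg γ i : ℤ) : ℝ) • (cd x i : E4) := by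
  rw [smul_def, cd_act, epsG, eps_apply]

lemma RR_apply (x : PP) (i : Fin 3) : RR x i = rf (cd x i) := by
  fin_cases i <;> rfl

lemma rf_eq_of_fix {a b : S3} (h : rf a (b : E4) = b) : rf a = rf b := by
  rw [rf_apply] at h
  have h1 : (b : E4) = inner ℝ (a : E4) (b : E4) • (a : E4) := by
    have h2 : (2 : ℝ) • (b : E4) = (2 : ℝ) • (inner ℝ (a : E4) (b : E4) • (a : E4)) := by
      rw [two_smul, smul_smul]
      exact (eq_add_of_sub_eq h).symm
    exact smul_right_injective _ (two_ne_zero (α := ℝ)) h2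
  set c := inner ℝ (a : E4) (b : E4) with hc
  have h3 : c * c = 1 := by
    have h4 := inner_self_S3 b
    rw [h1, inner_smul_left, inner_smul_right, inner_self_S3] at h4
    simpa using h4
  ext v : 1
  rw [rf_apply, rf_apply, h1, inner_smul_left, smul_smul]
  congr 2
  have : (2 : ℝ) * ((starRingEnd ℝ) c * inner ℝ (a : E4) v) * c = (c * c) * (2 * inner ℝ (a : E4) v) := by
    simp; ring
  rw [this, h3, one_mul]

lemma orth_of_neg {a b : S3} (h : rf a (b : E4) = -b) : inner ℝ (a : E4) (b : E4) = 0 := by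
  rw [rf_apply] at h
  have h1 : (2 * inner ℝ (a : E4) (b : E4)) • (a : E4) = 0 := by
    have := eq_add_of_sub_eq h
    rw [this, neg_add_cancel]
  have h2 := (smul_eq_zero.1 h1).resolve_right (S3_ne_zero a)
  linarith

lemma eq_or_neg {a b : S3} (h : rf a = rf b) : ∃ u : ℤˣ, (b : E4) = ((u : ℤ) : ℝ) • (a : E4) := by
  have h0 : rf a (b : E4) = b := by rw [h, rf_self]
  rw [rf_apply] at h0
  have h1 : (b : E4) = inner ℝ (a : E4) (b : E4) • (a : E4) := by
    have h2 : (2 : ℝ) • (b : E4) = (2 : ℝ) • (inner ℝ (a : E4) (b : E4) • (a : E4)) := by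
      rw [two_smul, smul_smul]
      exact (eq_add_of_sub_eq h0).symm
    exact smul_right_injective _ (two_ne_zero (α := ℝ)) h2
  set c := inner ℝ (a : E4) (b : E4) with hc
  have h3 : c * c = 1 := by
    have h4 := inner_self_S3 b
    rw [h1, inner_smul_left, inner_smul_right, inner_self_S3] at h4
    simpa using h4
  rcases mul_self_eq_one_iff.1 h3 with h4 | h4
  · refine ⟨1, ?_⟩
    rw [h1, h4]; simp
  · refine ⟨-1, ?_⟩
    rw [h1, h4]; simp

lemma rf_sign (u : ℤˣ) {a b : S3} (h : (b : E4) = ((u : ℤ) : ℝ) • (a : E4)) : rf b = rf a := by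
  ext v : 1
  rw [rf_apply, rf_apply, h, inner_smul_left, smul_smul]
  congr 2
  rcases Int.units_eq_one_or u with rfl | rfl
  · simp
  · simp

/-- orthogonality of lines -/
def orthL (K K' : E4 ≃ₗᵢ[ℝ] E4) : Prop :=
  ∃ a b : S3, K = rf a ∧ K' = rf b ∧ inner ℝ (a : E4) (b : E4) = 0

lemma orth_iff {a b : S3} (h : orthL (rf a) (rf b)) : inner ℝ (a : E4) (b : E4) = 0 := by
  obtain ⟨a', b', h1, h2, h3⟩ := h
  obtain ⟨u, hu⟩ := eq_or_neg h1.symm
  obtain ⟨v, hv⟩ := eq_or_neg h2.symm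
  rw [hu, hv, inner_smul_left, inner_smul_right, h3]
  simp

lemma orthL_irr (K : E4 ≃ₗᵢ[ℝ] E4) : ¬ orthL K K := by
  rintro ⟨a, b, rfl, h2, h3⟩
  have h4 : orthL (rf a) (rf a) := ⟨a, b, rfl, h2, h3⟩
  have := orth_iff h4
  rw [inner_self_S3] at this
  exact one_ne_zero this

lemma card_orth (S : Finset (E4 ≃ₗᵢ[ℝ] E4)) (hS : ∀ K ∈ S, ∃ a, K = rf a)
    (h : ∀ K ∈ S, ∀ K' ∈ S, K ≠ K' → orthL K K') : S.card ≤ 4 := by
  have h1 : ∀ K : S, ∃ a : S3, K.1 = rf a := fun K => hS K.1 K.2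
  choose f hf using h1
  have h2 : Orthonormal ℝ (fun K : S => (f K : E4)) := by
    refine ⟨fun K => norm_S3 _, ?_⟩
    intro K K' hne
    apply orth_iff
    rw [← hf, ← hf]
    exact h _ K.2 _ K'.2 fun h => hne (Subtype.ext h)
  have h3 := h2.linearIndependent.fintype_card_le_finrank
  rw [Fintype.card_coe, finrank_euclideanSpace_fin] at h3
  exact h3

/-! ### The quotient -/

section Q

variable {N : Type} [TopologicalSpace N]
    [ChartedSpace (ModelProd (EuclideanSpace ℝ (Fin 3)) (ModelProd (EuclideanSpace ℝ (Fin 3))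
      (EuclideanSpace ℝ (Fin 3)))) N] [IsManifold III ∞ N]
    {g' : Pool.Agent.Y503.HC.Metric III N} {p : PP → N}
    (hq : Pool.Agent.Y503.HC.IsQuotient Gam gP g' p)

include hq

lemma p_smul (γ : Gam) (x : PP) : p (γ • x) = p x := ((hq.fibre x (γ • x)).2 ⟨γ, rfl⟩).symm

omit hq in
lemma act_comm (L : Fin 3 → (E4 ≃ₗᵢ[ℝ] E4)) (γ : Gam) (x : PP) : act L (γ • x) = γ • act L x := by
  apply cd_injective
  funext i
  apply Subtype.ext
  rw [cd_act, cd_smul, cd_smul, cd_act, map_smul]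

lemma p_act (L : Fin 3 → (E4 ≃ₗᵢ[ℝ] E4)) (x y : PP) (h : p x = p y) :
    p (act L x) = p (act L y) := by
  obtain ⟨γ, rfl⟩ := (hq.fibre x y).1 h
  rw [act_comm, p_smul hq]

/-- the symmetries of the quotient -/
def sN (y0 : N) : Diffeomorph III III N N ∞ :=
  descD hq.localDiffeo hq.surjective (actD (RR (Function.surjInv hq.surjective y0)))
    (fun x y h => p_act hq _ x y h)
    (fun x y h => p_act hq (fun i => (RR (Function.surjInv hq.surjective y0) i).symm) x y h)

omit hq in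
lemma RR_smul (γ : Gam) (x : PP) : RR (γ • x) = RR x := by
  funext i
  rw [RR_apply, RR_apply]
  exact rf_sign (sg γ i) (cd_smul γ x i)

/-- the triple of lines of a point of the quotient -/
def rN (y : N) : Fin 3 → (E4 ≃ₗᵢ[ℝ] E4) := RR (Function.surjInv hq.surjective y)

lemma rN_apply (x : PP) : rN hq (p x) = RR x := by
  have h1 : p (Function.surjInv hq.surjective (p x)) = p x := Function.surjInv_eq _ _
  obtain ⟨γ, hγ⟩ := (hq.fibre _ _).1 h1
  unfold rN
  rw [← RR_smul γ, hγ]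

lemma sN_apply (x y : PP) : sN hq (p x) (p y) = p (act (RR x) y) := by
  unfold sN
  refine (descD_apply _ _ _ _ _ _).trans ?_
  have h := rN_apply hq x
  unfold rN at h
  rw [h]
  rfl

theorem sN_symmetric : IsSymmetricSpace g' (sN hq) where
  isometry y := by
    refine desc_isometry (g := gP) (f := actD (RR (Function.surjInv hq.surjective y)))
      hq.localDiffeo hq.surjective hq.induced ?_ (actD_isometry _)
    intro x
    exact descD_apply _ _ _ _ _ _
  fixed y := by
    obtain ⟨x, rfl⟩ := hq.surjective y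
    rw [sN_apply, act_RR_self]
  differential y v := by
    obtain ⟨x, rfl⟩ := hq.surjective y
    refine desc_differential (f := actD (RR x)) hq.localDiffeo (fun z => sN_apply hq x z)
      (act_RR_self x) (fun v => mfderiv_RR x v) v

/-- the antipodality condition -/
lemma antipodal_pair {x y : PP} (h : sN hq (p x) (p y) = p y) (hne : RR x ≠ RR y) :
    ∃ i, RR x i = RR y i ∧ ∀ j, j ≠ i → orthL (RR x j) (RR y j) := by
  rw [sN_apply, hq.fibre] at h
  obtain ⟨γ, hγ⟩ := h
  have h1 : ∀ i, sg γ i = 1 → RR x i = RR y i := by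
    intro i hi
    have h2 := congrArg (fun z : PP => ((cd z i : S3) : E4)) hγ
    simp only [cd_smul, cd_act, hi, RR_apply] at h2
    rw [RR_apply, RR_apply]
    apply rf_eq_of_fix
    simpa using h2
  have h2 : ∀ i, sg γ i = -1 → orthL (RR x i) (RR y i) := by
    intro i hi
    have h2 := congrArg (fun z : PP => ((cd z i : S3) : E4)) hγ
    simp only [cd_smul, cd_act, hi, RR_apply] at h2
    rw [RR_apply, RR_apply]
    refine ⟨_, _, rfl, rfl, orth_of_neg ?_⟩
    rw [← neg_eq_iff_eq_neg]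
    simpa using h2
  rcases Gam_cases γ with rfl | rfl | rfl | rfl
  · exact absurd (funext fun i => h1 i (sg_one i)) hne
  · refine ⟨1, h1 1 rfl, fun j hj => h2 j ?_⟩
    fin_cases j
    · rfl
    · exact absurd rfl hj
    · rfl
  · refine ⟨0, h1 0 rfl, fun j hj => h2 j ?_⟩
    fin_cases j
    · exact absurd rfl hj
    · rfl
    · rfl
  · refine ⟨2, h1 2 rfl, fun j hj => h2 j ?_⟩
    fin_cases j
    · rfl
    · rfl
    · exact absurd rfl hj

omit hq in
/-- change the sign of the last coordinate -/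
def flip (u : ℤˣ) (x : PP) : PP := act ![eps 1, eps 1, eps u] x

omit hq in
lemma cd_flip (u : ℤˣ) (x : PP) (i : Fin 3) :
    ((cd (flip u x) i : S3) : E4) = (((![1, 1, u] i : ℤˣ) : ℤ) : ℝ) • (cd x i : E4) := by
  rw [flip, cd_act]
  fin_cases i
  · exact eps_apply 1 _
  · exact eps_apply 1 _
  · exact eps_apply u _

/-- points with the same lines -/
lemma eq_flip {x y : PP} (h : RR y = RR x) : ∃ u : ℤˣ, p y = p (flip u x) := by
  have h1 : ∀ i, ∃ u : ℤˣ, ((cd y i : S3) : E4) = ((u : ℤ) : ℝ) • (cd x i : E4) := by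
    intro i
    have h2 := congrFun h i
    rw [RR_apply, RR_apply] at h2
    exact eq_or_neg h2.symm
  choose e he using h1
  refine ⟨e 0 * e 1 * e 2, ?_⟩
  rw [eq_comm, hq.fibre]
  let γ : Gam := ((e 0, e 1) : ℤˣ × ℤˣ)
  refine ⟨γ, ?_⟩
  apply cd_injective
  funext i
  apply Subtype.ext
  rw [cd_smul, cd_flip, he, smul_smul]
  congr 1
  fin_cases i
  · show ((e 0 : ℤ) : ℝ) * (((1 : ℤˣ) : ℤ) : ℝ) = ((e 0 : ℤ) : ℝ)
    simp
  · show ((e 1 : ℤ) : ℝ) * (((1 : ℤˣ) : ℤ) : ℝ) = ((e 1 : ℤ) : ℝ)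
    simp
  · show (((e 0 * e 1 : ℤˣ) : ℤ) : ℝ) * (((e 0 * e 1 * e 2 : ℤˣ) : ℤ) : ℝ) = ((e 2 : ℤ) : ℝ)
    have : (e 0 * e 1) * (e 0 * e 1 * e 2) = e 2 := by
      rw [← mul_assoc, Int.units_mul_self, one_mul]
    rw [← Int.cast_mul, ← Units.val_mul, this]

theorem twoNumber_le : twoNumber (sN hq) ≤ 8 := by
  classical
  apply iSup_le
  rintro ⟨A, hA⟩
  show A.encard ≤ 8
  by_contra hlt
  rw [not_le] at hlt
  have h9 : (9 : ℕ∞) ≤ A.encard := Order.add_one_le_of_lt hlt
  obtain ⟨B, hB, hcard⟩ := Set.exists_subset_encard_eq h9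
  have hfin : B.Finite := by
    apply Set.finite_of_encard_eq_coe (k := 9)
    exact hcard
  obtain ⟨F, rfl⟩ := hfin.exists_finset_coe
  rw [Set.encard_coe_eq_coe_finsetCard] at hcard
  have hF : F.card = 9 := by exact_mod_cast hcard
  have hfib : ∀ c ∈ F.image (rN hq), (F.filter fun y => rN hq y = c).card ≤ 2 := by
    intro c hc
    obtain ⟨y0, hy0, rfl⟩ := Finset.mem_image.1 hc
    obtain ⟨x0, rfl⟩ := hq.surjective y0
    have hsub : (F.filter fun y => rN hq y = rN hq (p x0)) ⊆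
        (Finset.univ : Finset ℤˣ).image (fun u => p (flip u x0)) := by
      intro y hy
      obtain ⟨hy1, hy2⟩ := Finset.mem_filter.1 hy
      obtain ⟨x, rfl⟩ := hq.surjective y
      rw [rN_apply, rN_apply] at hy2
      obtain ⟨u, hu⟩ := eq_flip hq hy2
      exact Finset.mem_image.2 ⟨u, Finset.mem_univ _, hu.symm⟩
    calc _ ≤ _ := Finset.card_le_card hsub
      _ ≤ (Finset.univ : Finset ℤˣ).card := Finset.card_image_le
      _ = 2 := by rfl
  have h1 := Finset.card_le_mul_card_image F 2 hfib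
  have h2 : (F.image (rN hq)).card ≤ 4 := by
    refine card_triples_le orthL orthL_irr (fun K => ∃ a, K = rf a) card_orth _ ?_ ?_
    · intro t ht i
      obtain ⟨y, hy, rfl⟩ := Finset.mem_image.1 ht
      obtain ⟨x, rfl⟩ := hq.surjective y
      exact ⟨cd x i, by rw [rN_apply, RR_apply]⟩
    · intro t ht t' ht' hne
      obtain ⟨y, hy, rfl⟩ := Finset.mem_image.1 ht
      obtain ⟨x, rfl⟩ := hq.surjective y
      obtain ⟨y', hy', rfl⟩ := Finset.mem_image.1 ht'
      obtain ⟨x', rfl⟩ := hq.surjective y'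
      rw [rN_apply, rN_apply] at hne ⊢
      exact antipodal_pair hq (hA _ (hB hy) _ (hB hy')) hne
  omega

end Q

end Pool.Agent.K6.H67.SY
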