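import Pool.Agent.K6.H67.SY.Topo
import Pool.Agent.Y503.HC.FinQuot
import Pool.Agent.H839R2.Geo.Embed

/-!
The Riemannian product of three 3-spheres and its isometries given by linear isometries.
-/

set_option autoImplicit false

open scoped Manifold ContDiff Topology
open Set Manifold Module Bundle

noncomputable section

namespace Pool.Agent.K6.H67.SY

instance factE4 : Fact (finrank ℝ E4 = 3 + 1) := ⟨by simp⟩

/-- the model with corners of `S³ × (S³ × S³)` -/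
abbrev III : ModelWithCorners ℝ
    (EuclideanSpace ℝ (Fin 3) × (EuclideanSpace ℝ (Fin 3) × EuclideanSpace ℝ (Fin 3)))
    (ModelProd (EuclideanSpace ℝ (Fin 3)) (ModelProd (EuclideanSpace ℝ (Fin 3))
      (EuclideanSpace ℝ (Fin 3)))) :=
  (𝓡 3).prod ((𝓡 3).prod (𝓡 3))

/-- the model vector space -/
abbrev E9 : Type :=
  EuclideanSpace ℝ (Fin 3) × (EuclideanSpace ℝ (Fin 3) × EuclideanSpace ℝ (Fin 3))

/-- the ambient space -/
abbrev VV : Type := E4 × (E4 × E4)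

/-- the inclusion -/
def inc (x : PP) : VV := ((x.1 : E4), ((x.2.1 : E4), (x.2.2 : E4)))

lemma inc_smooth : ContMDiff III 𝓘(ℝ, VV) ∞ inc := by
  apply ContMDiff.prodMk_space
  · exact (contMDiff_coe_sphere (m := ∞)).comp contMDiff_fst
  · apply ContMDiff.prodMk_space
    · exact (contMDiff_coe_sphere (m := ∞)).comp (contMDiff_fst.comp contMDiff_snd)
    · exact (contMDiff_coe_sphere (m := ∞)).comp (contMDiff_snd.comp contMDiff_snd)

lemma inc_injective : Function.Injective inc := by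
  intro x y h
  have h1 : (x.1 : E4) = y.1 := congrArg Prod.fst h
  have h2 : (x.2.1 : E4) = y.2.1 := congrArg (fun z : VV => z.2.1) h
  have h3 : (x.2.2 : E4) = y.2.2 := congrArg (fun z : VV => z.2.2) h
  exact Prod.ext (Subtype.ext h1) (Prod.ext (Subtype.ext h2) (Subtype.ext h3))

/-- the derivative of a map to a vector space -/
def Dm {W : Type} [NormedAddCommGroup W] [NormedSpace ℝ W] (ι : PP → W) (x : PP) : E9 →L[ℝ] W :=
  mfderiv III 𝓘(ℝ, W) ι x

lemma Dm_comp {W W' : Type} [NormedAddCommGroup W] [NormedSpace ℝ W] [NormedAddCommGroup W']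
    [NormedSpace ℝ W'] {ι : PP → W} {r : W → W'} {x : PP}
    (h1 : MDifferentiableAt III 𝓘(ℝ, W) ι x) (h2 : DifferentiableAt ℝ r (ι x)) (w : E9) :
    Dm (r ∘ ι) x w = fderiv ℝ r (ι x) (Dm ι x w) := by
  have h3 := mfderiv_comp x h2.mdifferentiableAt h1
  have h4 : Dm (r ∘ ι) x w =
      (mfderiv 𝓘(ℝ, W) 𝓘(ℝ, W') r (ι x) : W →L[ℝ] W') (Dm ι x w) :=
    congrArg (fun L : E9 →L[ℝ] W' => L w) h3
  rw [h4]
  rw [mfderiv_eq_fderiv]
  rfl

/-- the derivative of the inclusion of the sphere -/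
def DS (x : S3) : EuclideanSpace ℝ (Fin 3) →L[ℝ] E4 := mfderiv (𝓡 3) 𝓘(ℝ, E4) ((↑) : S3 → E4) x

lemma DS_injective (x : S3) : Function.Injective (DS x) := mfderiv_coe_sphere_injective (n := 3) x

lemma DS_orth (x : S3) (v : EuclideanSpace ℝ (Fin 3)) : inner ℝ (x : E4) (DS x v) = 0 := by
  have h := range_mfderiv_coe_sphere (n := 3) x
  have h1 : DS x v ∈ (ℝ ∙ (x : E4))ᗮ := by
    rw [← h]
    exact ⟨v, rfl⟩
  exact Submodule.mem_orthogonal_singleton_iff_inner_right.1 h1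

lemma Dm_inc (x : PP) (w : E9) : Dm inc x w = (DS x.1 w.1, (DS x.2.1 w.2.1, DS x.2.2 w.2.2)) := by
  have d0 : MDifferentiableAt III 𝓘(ℝ, VV) inc x := (inc_smooth x).mdifferentiableAt (by simp)
  have hS : ∀ y : S3, MDifferentiableAt (𝓡 3) 𝓘(ℝ, E4) ((↑) : S3 → E4) y := fun y =>
    (contMDiff_coe_sphere (m := ∞) y).mdifferentiableAt (by simp)
  have e1 : (Dm inc x w).1 = DS x.1 w.1 := by
    have h1 := Dm_comp (r := Prod.fst) d0 differentiableAt_fst w
    rw [fderiv_fst] at h1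
    have h2 : (Prod.fst ∘ inc : PP → E4) = ((↑) : S3 → E4) ∘ Prod.fst := rfl
    have h3 := mfderiv_comp x (hS x.1)
      (mdifferentiableAt_fst (I := 𝓡 3) (I' := (𝓡 3).prod (𝓡 3)) (x := x))
    rw [h2] at h1
    have h4 := congrArg (fun L : E9 →L[ℝ] E4 => L w) h3
    rw [mfderiv_fst] at h4
    exact h1.symm.trans h4
  have e2 : (Dm inc x w).2.1 = DS x.2.1 w.2.1 := by
    have h1 := Dm_comp (r := fun z : VV => z.2.1) d0
      (differentiableAt_fst.comp _ differentiableAt_snd) w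
    have h0 : fderiv ℝ (fun z : VV => z.2.1) (inc x) =
        (ContinuousLinearMap.fst ℝ E4 E4).comp (ContinuousLinearMap.snd ℝ E4 (E4 × E4)) :=
      ((ContinuousLinearMap.fst ℝ E4 E4).comp
        (ContinuousLinearMap.snd ℝ E4 (E4 × E4))).hasFDerivAt.fderiv
    rw [h0] at h1
    have h2 : ((fun z : VV => z.2.1) ∘ inc : PP → E4) =
      (((↑) : S3 → E4) ∘ Prod.fst) ∘ Prod.snd := rfl
    have d1 : MDifferentiableAt ((𝓡 3).prod (𝓡 3)) 𝓘(ℝ, E4)
        (((↑) : S3 → E4) ∘ (Prod.fst : S3 × S3 → S3)) x.2 :=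
      (hS x.2.1).comp x.2 mdifferentiableAt_fst
    have h3 := mfderiv_comp x d1
      (mdifferentiableAt_snd (I := 𝓡 3) (I' := (𝓡 3).prod (𝓡 3)) (x := x))
    have h5 := mfderiv_comp x.2 (hS x.2.1)
      (mdifferentiableAt_fst (I := 𝓡 3) (I' := 𝓡 3) (x := x.2))
    rw [h2] at h1
    have h4 := congrArg (fun L : E9 →L[ℝ] E4 => L w) h3
    rw [mfderiv_snd, h5, mfderiv_fst] at h4
    exact h1.symm.trans h4
  have e3 : (Dm inc x w).2.2 = DS x.2.2 w.2.2 := by
    have h1 := Dm_comp (r := fun z : VV => z.2.2) d0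
      (differentiableAt_snd.comp _ differentiableAt_snd) w
    have h0 : fderiv ℝ (fun z : VV => z.2.2) (inc x) =
        (ContinuousLinearMap.snd ℝ E4 E4).comp (ContinuousLinearMap.snd ℝ E4 (E4 × E4)) :=
      ((ContinuousLinearMap.snd ℝ E4 E4).comp
        (ContinuousLinearMap.snd ℝ E4 (E4 × E4))).hasFDerivAt.fderiv
    rw [h0] at h1
    have h2 : ((fun z : VV => z.2.2) ∘ inc : PP → E4) =
      (((↑) : S3 → E4) ∘ Prod.snd) ∘ Prod.snd := rfl
    have d1 : MDifferentiableAt ((𝓡 3).prod (𝓡 3)) 𝓘(ℝ, E4)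
        (((↑) : S3 → E4) ∘ (Prod.snd : S3 × S3 → S3)) x.2 :=
      (hS x.2.2).comp x.2 mdifferentiableAt_snd
    have h3 := mfderiv_comp x d1
      (mdifferentiableAt_snd (I := 𝓡 3) (I' := (𝓡 3).prod (𝓡 3)) (x := x))
    have h5 := mfderiv_comp x.2 (hS x.2.2)
      (mdifferentiableAt_snd (I := 𝓡 3) (I' := 𝓡 3) (x := x.2))
    rw [h2] at h1
    have h4 := congrArg (fun L : E9 →L[ℝ] E4 => L w) h3
    rw [mfderiv_snd, h5, mfderiv_snd] at h4
    exact h1.symm.trans h4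
  exact Prod.ext e1 (Prod.ext e2 e3)

lemma Dm_inc_injective (x : PP) : Function.Injective (Dm inc x) := by
  intro u v h
  rw [Dm_inc, Dm_inc] at h
  have h1 : DS x.1 u.1 = DS x.1 v.1 := congrArg Prod.fst h
  have h2 : DS x.2.1 u.2.1 = DS x.2.1 v.2.1 := congrArg (fun z : VV => z.2.1) h
  have h3 : DS x.2.2 u.2.2 = DS x.2.2 v.2.2 := congrArg (fun z : VV => z.2.2) h
  exact Prod.ext (DS_injective _ h1) (Prod.ext (DS_injective _ h2) (DS_injective _ h3))

/-- the sum of the three inner products -/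
def GG : VV →L[ℝ] VV →L[ℝ] ℝ :=
  (innerSL ℝ : E4 →L[ℝ] E4 →L[ℝ] ℝ).bilinearComp (ContinuousLinearMap.fst ℝ E4 (E4 × E4))
      (ContinuousLinearMap.fst ℝ E4 (E4 × E4)) +
    ((innerSL ℝ : E4 →L[ℝ] E4 →L[ℝ] ℝ).bilinearComp
      ((ContinuousLinearMap.fst ℝ E4 E4).comp (ContinuousLinearMap.snd ℝ E4 (E4 × E4)))
      ((ContinuousLinearMap.fst ℝ E4 E4).comp (ContinuousLinearMap.snd ℝ E4 (E4 × E4))) +
    (innerSL ℝ : E4 →L[ℝ] E4 →L[ℝ] ℝ).bilinearComp
      ((ContinuousLinearMap.snd ℝ E4 E4).comp (ContinuousLinearMap.snd ℝ E4 (E4 × E4)))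
      ((ContinuousLinearMap.snd ℝ E4 E4).comp (ContinuousLinearMap.snd ℝ E4 (E4 × E4))))

lemma GG_apply (v w : VV) : GG v w = inner ℝ v.1 w.1 + (inner ℝ v.2.1 w.2.1 +
    inner ℝ v.2.2 w.2.2) := rfl

lemma GG_symm (v w : VV) : GG v w = GG w v := by
  rw [GG_apply, GG_apply, real_inner_comm, real_inner_comm v.2.1, real_inner_comm v.2.2]

lemma GG_pos (v : VV) (hv : v ≠ 0) : 0 < GG v v := by
  rw [GG_apply, real_inner_self_eq_norm_sq, real_inner_self_eq_norm_sq,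
    real_inner_self_eq_norm_sq]
  by_contra h
  apply hv
  have h1 : ‖v.1‖ ^ 2 = 0 := by nlinarith [sq_nonneg ‖v.1‖, sq_nonneg ‖v.2.1‖, sq_nonneg ‖v.2.2‖]
  have h2 : ‖v.2.1‖ ^ 2 = 0 := by
    nlinarith [sq_nonneg ‖v.1‖, sq_nonneg ‖v.2.1‖, sq_nonneg ‖v.2.2‖]
  have h3 : ‖v.2.2‖ ^ 2 = 0 := by
    nlinarith [sq_nonneg ‖v.1‖, sq_nonneg ‖v.2.1‖, sq_nonneg ‖v.2.2‖]
  exact Prod.ext (norm_eq_zero.1 (pow_eq_zero_iff two_ne_zero |>.1 h1))
    (Prod.ext (norm_eq_zero.1 (pow_eq_zero_iff two_ne_zero |>.1 h2))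
      (norm_eq_zero.1 (pow_eq_zero_iff two_ne_zero |>.1 h3)))

/-- the product metric -/
def gP : ContMDiffRiemannianMetric III ∞ E9 (fun x : PP => TangentSpace III x) :=
  Pool.Agent.H839R2.Geo.embMetric inc inc_smooth Dm_inc_injective (fun _ => GG)
    (fun _ => contDiffAt_const) (fun _ v w => GG_symm v w) (fun _ v hv => GG_pos v hv)

lemma gP_apply (x : PP) (v w : E9) :
    (gP.inner x : E9 →L[ℝ] E9 →L[ℝ] ℝ) v w = GG (Dm inc x v) (Dm inc x w) := rfl

/-! ### Linear isometries -/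

/-- the action of a linear isometry on the sphere -/
def sph (L : E4 ≃ₗᵢ[ℝ] E4) (x : S3) : S3 :=
  ⟨L x, by rw [mem_sphere_zero_iff_norm, L.norm_map, norm_S3]⟩

@[simp] lemma coe_sph (L : E4 ≃ₗᵢ[ℝ] E4) (x : S3) : (sph L x : E4) = L x := rfl

lemma sph_smooth (L : E4 ≃ₗᵢ[ℝ] E4) : ContMDiff (𝓡 3) (𝓡 3) ∞ (sph L) := by
  have h : ContMDiff (𝓡 3) 𝓘(ℝ, E4) ∞ (fun x : S3 => L (x : E4)) :=
    L.toContinuousLinearEquiv.contDiff.contMDiff.comp (contMDiff_coe_sphere (m := ∞))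
  exact h.codRestrict_sphere _

/-- the action of three linear isometries -/
def act (L : Fin 3 → (E4 ≃ₗᵢ[ℝ] E4)) (x : PP) : PP :=
  (sph (L 0) x.1, (sph (L 1) x.2.1, sph (L 2) x.2.2))

lemma act_smooth (L : Fin 3 → (E4 ≃ₗᵢ[ℝ] E4)) : ContMDiff III III ∞ (act L) := by
  apply ContMDiff.prodMk
  · exact (sph_smooth (L 0)).comp contMDiff_fst
  · apply ContMDiff.prodMk
    · exact (sph_smooth (L 1)).comp (contMDiff_fst.comp contMDiff_snd)
    · exact (sph_smooth (L 2)).comp (contMDiff_snd.comp contMDiff_snd)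

/-- the linear map on the ambient space -/
def LL (L : Fin 3 → (E4 ≃ₗᵢ[ℝ] E4)) : VV →L[ℝ] VV :=
  ((L 0).toContinuousLinearEquiv : E4 →L[ℝ] E4).prodMap
    (((L 1).toContinuousLinearEquiv : E4 →L[ℝ] E4).prodMap
      ((L 2).toContinuousLinearEquiv : E4 →L[ℝ] E4))

lemma LL_apply (L : Fin 3 → (E4 ≃ₗᵢ[ℝ] E4)) (v : VV) :
    LL L v = (L 0 v.1, (L 1 v.2.1, L 2 v.2.2)) := rfl

lemma inc_act (L : Fin 3 → (E4 ≃ₗᵢ[ℝ] E4)) (x : PP) : inc (act L x) = LL L (inc x) := rfl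

/-- the diffeomorphism -/
def actD (L : Fin 3 → (E4 ≃ₗᵢ[ℝ] E4)) : Diffeomorph III III PP PP ∞ where
  toFun := act L
  invFun := act fun i => (L i).symm
  left_inv x := by
    apply inc_injective
    rw [inc_act, inc_act, LL_apply, LL_apply]
    simp
  right_inv x := by
    apply inc_injective
    rw [inc_act, inc_act, LL_apply, LL_apply]
    simp
  contMDiff_toFun := act_smooth L
  contMDiff_invFun := act_smooth (fun i => (L i).symm)

lemma actD_apply (L : Fin 3 → (E4 ≃ₗᵢ[ℝ] E4)) (x : PP) : actD L x = act L x := rfl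

lemma Dm_act (L : Fin 3 → (E4 ≃ₗᵢ[ℝ] E4)) (x : PP) (v : E9) :
    Dm inc (act L x) ((mfderiv III III (act L) x : E9 →L[ℝ] E9) v) = LL L (Dm inc x v) := by
  have d1 : MDifferentiableAt III 𝓘(ℝ, VV) inc (act L x) :=
    (inc_smooth _).mdifferentiableAt (by simp)
  have d2 : MDifferentiableAt III III (act L) x := (act_smooth L x).mdifferentiableAt (by simp)
  have d3 : MDifferentiableAt III 𝓘(ℝ, VV) inc x := (inc_smooth _).mdifferentiableAt (by simp)
  have e1 := mfderiv_comp x d1 d2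
  have e2 : inc ∘ act L = LL L ∘ inc := funext (inc_act L)
  have e3 := Dm_comp (r := LL L) d3 (LL L).differentiableAt v
  have e4 : Dm (inc ∘ act L) x v =
    Dm inc (act L x) ((mfderiv III III (act L) x : E9 →L[ℝ] E9) v) :=
    congrArg (fun L : E9 →L[ℝ] VV => L v) e1
  rw [← e4, e2, e3]
  rw [(LL L).hasFDerivAt.fderiv]

lemma actD_isometry (L : Fin 3 → (E4 ≃ₗᵢ[ℝ] E4)) : IsIsometry gP (actD L) := by
  intro x v w
  have h1 : (gP.inner (act L x) : E9 →L[ℝ] E9 →L[ℝ] ℝ)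
      ((mfderiv III III (act L) x : E9 →L[ℝ] E9) v)
      ((mfderiv III III (act L) x : E9 →L[ℝ] E9) w) =
      GG (Dm inc (act L x) ((mfderiv III III (act L) x : E9 →L[ℝ] E9) v))
        (Dm inc (act L x) ((mfderiv III III (act L) x : E9 →L[ℝ] E9) w)) := gP_apply _ _ _
  refine Eq.trans h1 ?_
  refine Eq.trans (congrArg₂ (fun a b => GG a b) (Dm_act L x v) (Dm_act L x w)) ?_
  have h2 : (gP.inner x : E9 →L[ℝ] E9 →L[ℝ] ℝ) v w = GG (Dm inc x v) (Dm inc x w) := gP_apply _ _ _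
  refine Eq.trans ?_ h2.symm
  rw [GG_apply, GG_apply, LL_apply, LL_apply]
  simp only [LinearIsometryEquiv.inner_map_map]

/-! ### The symmetries -/

/-- the reflection in the line through `a` -/
def rf (a : S3) : E4 ≃ₗᵢ[ℝ] E4 := (ℝ ∙ (a : E4)).reflection

lemma rf_apply (a : S3) (v : E4) : rf a v = (2 * inner ℝ (a : E4) v) • (a : E4) - v := by
  unfold rf
  rw [Submodule.reflection_singleton_apply, norm_S3]
  simp [two_smul, two_mul, add_smul]

lemma rf_self (a : S3) : rf a (a : E4) = a := by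
  rw [rf_apply, real_inner_self_eq_norm_sq, norm_S3]
  simp [two_smul]

lemma rf_orth (a : S3) {v : E4} (h : inner ℝ (a : E4) v = 0) : rf a v = -v := by
  rw [rf_apply, h]; simp

/-- the symmetry of the product at `x` -/
def RR (x : PP) : Fin 3 → (E4 ≃ₗᵢ[ℝ] E4) := ![rf x.1, rf x.2.1, rf x.2.2]

lemma act_RR_self (x : PP) : act (RR x) x = x := by
  apply inc_injective
  rw [inc_act, LL_apply]
  exact Prod.ext (rf_self _) (Prod.ext (rf_self _) (rf_self _))

lemma act_RR_invol (x y : PP) : act (RR x) (act (RR x) y) = y := by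
  apply inc_injective
  rw [inc_act, inc_act, LL_apply, LL_apply]
  exact Prod.ext (Submodule.reflection_reflection _ _)
    (Prod.ext (Submodule.reflection_reflection _ _) (Submodule.reflection_reflection _ _))

lemma mfderiv_RR (x : PP) (v : E9) : (mfderiv III III (act (RR x)) x : E9 →L[ℝ] E9) v = -v := by
  have h1 := Dm_act (RR x) x v
  rw [act_RR_self] at h1
  apply Dm_inc_injective x
  refine h1.trans ?_
  have h2 : Dm inc x (-v) = - Dm inc x v := map_neg _ _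
  refine Eq.trans ?_ h2.symm
  rw [LL_apply, Dm_inc]
  exact Prod.ext (rf_orth _ (DS_orth _ _)) (Prod.ext (rf_orth _ (DS_orth _ _))
    (rf_orth _ (DS_orth _ _)))

end Pool.Agent.K6.H67.SY
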