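import Pool.Agent.K6.H67.SY.Final

/-!
An antipodal set with eight elements, and the main theorem.
-/

set_option autoImplicit false

open scoped Manifold ContDiff Topology
open Set Manifold Module Bundle

noncomputable section

namespace Pool.Agent.K6.H67.SY

/-- two orthonormal vectors -/
def bs (i : Fin 2) : S3 := ⟨EuclideanSpace.single (Fin.castLE (by norm_num) i) 1, by simp⟩

lemma bs_self (i : Fin 2) : rf (bs i) (bs i : E4) = bs i := rf_self _

lemma inner_bs {i j : Fin 2} (h : i ≠ j) : inner ℝ (bs i : E4) (bs j : E4) = 0 := by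
  have h1 : (Fin.castLE (by norm_num) i : Fin 4) ≠ Fin.castLE (by norm_num) j := by
    intro h2
    exact h (Fin.castLE_injective _ h2)
  show inner ℝ (EuclideanSpace.single (Fin.castLE (by norm_num) i) 1 : E4)
    (EuclideanSpace.single (Fin.castLE (by norm_num) j) 1 : E4) = 0
  rw [EuclideanSpace.inner_single_left, PiLp.single_apply, if_neg h1]
  simp

/-- the four triples of lines -/
def ell : Fin 4 → Fin 3 → Fin 2 := ![![0, 0, 0], ![0, 1, 1], ![1, 0, 1], ![1, 1, 0]]

/-- the four points -/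
def TT (i : Fin 4) : PP := (bs (ell i 0), (bs (ell i 1), bs (ell i 2)))

lemma cd_TT (i : Fin 4) (k : Fin 3) : cd (TT i) k = bs (ell i k) := by
  fin_cases k <;> rfl

/-- the sign of a pair -/
def sgn (i j : Fin 4) (k : Fin 3) : ℤˣ := if ell i k = ell j k then 1 else -1

lemma sgn_prod : ∀ (i j : Fin 4), sgn i j 0 * sgn i j 1 = sgn i j 2 := by decide

/-- the group element of a pair -/
def gam (i j : Fin 4) : Gam := ((sgn i j 0, sgn i j 1) : ℤˣ × ℤˣ)

lemma sg_gam (i j : Fin 4) (k : Fin 3) : sg (gam i j) k = sgn i j k := by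
  fin_cases k
  · rfl
  · rfl
  · exact sgn_prod i j

lemma ell_injective : Function.Injective ell := by decide

lemma rf_bs (a b : Fin 2) : rf (bs a) (bs b : E4) =
    (((if a = b then 1 else -1 : ℤˣ) : ℤ) : ℝ) • (bs b : E4) := by
  by_cases h : a = b
  · subst h
    rw [rf_self]; simp
  · rw [if_neg h, rf_orth _ (inner_bs h)]; simp

lemma RR_flip (u : ℤˣ) (x : PP) : RR (flip u x) = RR x := by
  funext k
  rw [RR_apply, RR_apply]
  exact rf_sign _ (cd_flip u x k)

lemma act_RR_TT (u v : ℤˣ) (i j : Fin 4) :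
    act (RR (flip u (TT i))) (flip v (TT j)) = gam i j • flip v (TT j) := by
  apply cd_injective
  funext k
  apply Subtype.ext
  rw [cd_act, cd_smul, RR_flip, RR_apply, cd_flip, cd_TT, cd_TT, sg_gam, map_smul, rf_bs]
  rw [smul_comm]
  rfl

lemma bs_ne {a b : Fin 2} {c : ℝ} (h : (bs a : E4) = c • (bs b : E4)) : a = b := by
  by_contra hne
  have h1 := inner_bs hne
  rw [h, inner_smul_left, inner_self_S3] at h1
  have h2 : c = 0 := by simpa using h1
  rw [h2, zero_smul] at h
  exact S3_ne_zero _ h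

section Q

variable {N : Type} [TopologicalSpace N]
    [ChartedSpace (ModelProd (EuclideanSpace ℝ (Fin 3)) (ModelProd (EuclideanSpace ℝ (Fin 3))
      (EuclideanSpace ℝ (Fin 3)))) N] [IsManifold III ∞ N]
    {g' : Pool.Agent.Y503.HC.Metric III N} {p : PP → N}
    (hq : Pool.Agent.Y503.HC.IsQuotient Gam gP g' p)

include hq

lemma inj_TT : Function.Injective (fun w : ℤˣ × Fin 4 => p (flip w.1 (TT w.2))) := by
  rintro ⟨u, i⟩ ⟨v, j⟩ h
  obtain ⟨γ, hγ⟩ := (hq.fibre _ _).1 h
  have h1 : ∀ k, ((sg γ k : ℤ) : ℝ) • ((((![1, 1, u] k : ℤˣ) : ℤ) : ℝ) • (bs (ell i k) : E4)) =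
      (((![1, 1, v] k : ℤˣ) : ℤ) : ℝ) • (bs (ell j k) : E4) := by
    intro k
    have h2 := congrArg (fun z : PP => ((cd z k : S3) : E4)) hγ
    simp only [cd_smul, cd_flip, cd_TT] at h2
    exact h2
  have hsq : ∀ w : ℤˣ, ((w : ℤ) : ℝ) * ((w : ℤ) : ℝ) = 1 := by
    intro w
    rcases Int.units_eq_one_or w with rfl | rfl <;> simp
  have hij : i = j := by
    apply ell_injective
    funext k
    symm
    have h2 := h1 k
    rw [smul_smul] at h2
    refine bs_ne (c := (((![1, 1, v] k : ℤˣ) : ℤ) : ℝ) * (((sg γ k : ℤ) : ℝ) *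
      (((![1, 1, u] k : ℤˣ) : ℤ) : ℝ))) ?_
    rw [mul_smul, h2, smul_smul, hsq, one_smul]
  subst hij
  have h3 : ∀ k, sg γ k * (![1, 1, u] k : ℤˣ) = (![1, 1, v] k : ℤˣ) := by
    intro k
    have h2 := h1 k
    rw [smul_smul] at h2
    have h4 := smul_left_injective ℝ (S3_ne_zero (bs (ell i k))) h2
    apply Units.ext
    have h5 : ((sg γ k : ℤ) : ℝ) * (((![1, 1, u] k : ℤˣ) : ℤ) : ℝ) =
      (((![1, 1, v] k : ℤˣ) : ℤ) : ℝ) := h4
    rw [Units.val_mul]
    exact_mod_cast h5
  have h4 : γ.1 * 1 = 1 := h3 0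
  have h5 : γ.2 * 1 = 1 := h3 1
  have h6 : γ.1 * γ.2 * u = v := h3 2
  rw [mul_one] at h4 h5
  rw [h4, h5, one_mul, one_mul] at h6
  rw [h6]

theorem le_twoNumber : 8 ≤ twoNumber (sN hq) := by
  have hanti : IsAntipodal (sN hq) (Set.range (fun w : ℤˣ × Fin 4 => p (flip w.1 (TT w.2)))) := by
    rintro _ ⟨⟨u, i⟩, rfl⟩ _ ⟨⟨v, j⟩, rfl⟩
    show sN hq (p (flip u (TT i))) (p (flip v (TT j))) = p (flip v (TT j))
    rw [sN_apply, act_RR_TT, p_smul hq]
  have hcard : (Set.range (fun w : ℤˣ × Fin 4 => p (flip w.1 (TT w.2)))).encard = 8 := by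
    rw [← Set.image_univ, (inj_TT hq).encard_image, Set.encard_univ,
      ENat.card_eq_coe_fintype_card]
    rfl
  rw [← hcard]
  exact le_iSup (fun A : {A : Set N // IsAntipodal (sN hq) A} => A.1.encard) ⟨_, hanti⟩

theorem twoNumber_eq : twoNumber (sN hq) = 8 := le_antisymm (twoNumber_le hq) (le_twoNumber hq)

end Q

instance : CompactSpace PP := inferInstance

instance : ConnectedSpace S3 := by
  rw [← isConnected_iff_connectedSpace]
  apply isConnected_sphere
  · rw [rank_eq_card_basis (EuclideanSpace.basisFun (Fin 4) ℝ).toBasis]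
    simp
  · norm_num

/-- **Main theorem.** There is a compact connected Riemannian symmetric space whose two-number is
`8` while its total mod 2 Betti number is at least `10`. -/
theorem main : ∃ (E : Type) (_ : NormedAddCommGroup E) (_ : NormedSpace ℝ E)
    (_ : FiniteDimensional ℝ E) (H : Type) (_ : TopologicalSpace H) (I : ModelWithCorners ℝ E H)
    (_ : I.Boundaryless) (M : Type) (_ : TopologicalSpace M) (_ : ChartedSpace H M)
    (_ : IsManifold I ∞ M) (_ : T2Space M) (_ : SecondCountableTopology M) (_ : CompactSpace M)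
    (_ : ConnectedSpace M)
    (g : ContMDiffRiemannianMetric I ∞ E (fun x : M => TangentSpace I x))
    (s : M → Diffeomorph I I M M ∞),
    IsSymmetricSpace g s ∧ twoNumber s = 8 ∧ 10 ≤ totalBetti M := by
  obtain ⟨N, i1, i2, i3, i4, g', p, hq⟩ := exists_quot
  have hc : CompactSpace N := hq.surjective.compactSpace hq.covering.continuous
  have hconn : ConnectedSpace N := hq.surjective.connectedSpace hq.covering.continuous
  have h2 : SecondCountableTopology N :=
    (IsOpenQuotientMap.mk hq.surjective hq.covering.continuous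
      hq.covering.isLocalHomeomorph.isOpenMap).isQuotientMap.secondCountableTopology
      hq.covering.isLocalHomeomorph.isOpenMap
  exact ⟨E9, inferInstance, inferInstance, inferInstance, _, inferInstance, III, inferInstance, N,
    i1, i2, i3, i4, h2, hc, hconn, g', sN hq, sN_symmetric hq, twoNumber_eq hq,
    totalBetti_quot hq.covering hq.surjective hq.fibre⟩

end Pool.Agent.K6.H67.SY
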