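import Pool.Agent.K6.H67.SY.Alg

/-!
Lower bounds for the mod 2 Betti numbers of a quotient by a free action of the four-group.
-/

set_option autoImplicit false

open scoped Manifold ContDiff

noncomputable section

namespace Pool.Agent.K6.H67.SY

namespace Four

variable {P N : Type} [TopologicalSpace P] [TopologicalSpace N] (F : Four P N)

lemma bb_TB {q : ℕ} (m : Cochain P q) (h : F.Bb q (F.TB m)) :
    ∃ m' : Cochain P q, F.InvB m' ∧ delta P q m' = delta P q m := by
  cases q with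
  | zero => exact ⟨m, F.TB_zero_iff.1 h, rfl⟩
  | succ q =>
    obtain ⟨n, hn, hn'⟩ := h
    refine ⟨m + delta P q (F.cut n), ?_, ?_⟩
    · rw [← F.TB_zero_iff, F.TB_add, ← F.delta_TB, F.TB_cut hn, hn', add_self']
    · rw [map_add, delta_delta, add_zero]

/-- the hypotheses: the cohomology of `P` vanishes in the degrees `1, …, Q`, and `P` is nonempty
and connected -/
structure Acyc (P : Type) [TopologicalSpace P] (Q : ℕ) : Prop where
  pos : ∀ q < Q, ∀ c : Cochain P (q + 1), delta P (q + 1) c = 0 → ∃ m, delta P q m = c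
  zero : ∀ c : Cochain P 0, delta P 0 c = 0 → c = 0 ∨ c = fun _ => 1
  ne : Nonempty (Simp P 0)

variable {F} {Q : ℕ} (h : Acyc P Q)

include h

lemma span (F : Four P N) {q : ℕ} (hq : q ≤ Q) (z : Cochain P q) (hz : F.InvB z)
    (dz : delta P q z = 0) : F.Bb q z ∨ F.Bb q (z + F.u q) := by
  induction q with
  | zero =>
    rcases h.zero z dz with h0 | h0
    · exact Or.inl h0
    · right
      show z + F.u 0 = 0
      rw [h0]
      exact add_self' _
  | succ q ih =>
    obtain ⟨m, hm⟩ := h.pos q (by omega) z dz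
    have h1 : delta P q (F.TB m) = 0 := by rw [F.delta_TB, hm, F.TB_zero_iff.2 hz]
    rcases ih (by omega) (F.TB m) (F.TB_invB m) h1 with h2 | h2
    · obtain ⟨m', h3, h4⟩ := F.bb_TB m h2
      exact Or.inl ⟨m', h3, h4.trans hm⟩
    · have h5 : F.TB m + F.u q = F.TB (m + F.cut (F.u q)) := by
        rw [F.TB_add, F.TB_cut (F.u_spec q).2.1]
      rw [h5] at h2
      obtain ⟨m', h3, h4⟩ := F.bb_TB _ h2
      refine Or.inr ⟨m', h3, h4.trans ?_⟩
      rw [map_add, hm]
      rfl

lemma not_bb (F : Four P N) {q : ℕ} (hq : q ≤ Q + 1) : ¬ F.Bb q (F.u q) := by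
  induction q with
  | zero =>
    intro h0
    obtain ⟨σ⟩ := h.ne
    have : (1 : ZMod 2) = 0 := congrFun h0 σ
    exact absurd this (by decide)
  | succ q ih =>
    rintro ⟨k, hk, hk'⟩
    apply ih (by omega)
    have h1 : delta P q (F.cut (F.u q) + k) = 0 := by
      rw [map_add, hk']
      exact add_self' _
    have h2 : F.TB (F.cut (F.u q) + k) = F.u q := by
      rw [F.TB_add, F.TB_cut (F.u_spec q).2.1, F.TB_zero_iff.2 hk, add_zero]
    cases q with
    | zero =>
      rcases h.zero _ h1 with h3 | h3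
      · rw [h3] at h2
        rw [← h2]
        rfl
      · rw [h3] at h2
        rw [← h2]
        show (F.TB fun _ => 1) = 0
        rw [F.TB_zero_iff]
        intro τ
        rfl
    | succ q =>
      obtain ⟨m, hm⟩ := h.pos q (by omega) _ h1
      refine ⟨F.TB m, F.TB_invB m, ?_⟩
      rw [F.delta_TB, hm, h2]

omit h in
lemma mem_cocycles_of {F : Four P N} {q : ℕ} {c : Cochain N q}
    (hc : delta P q (pbk F.p q c) = 0) : c ∈ cocycles N q := by
  rw [cocycles, LinearMap.mem_ker]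
  apply F.pb_inj
  rw [← delta_pbk, hc, map_zero]

omit h in
lemma mk_eq_zero_iff {X : Type} [TopologicalSpace X] {q : ℕ} (c : cocycles X q) :
    (Submodule.Quotient.mk c : Cohomology X q) = 0 ↔ (c : Cochain X q) ∈ coboundaries X q := by
  rw [Submodule.Quotient.mk_eq_zero]
  rfl

omit h in
lemma bb_of_coboundary (F : Four P N) {q : ℕ} {c : Cochain N q} (hc : c ∈ coboundaries N q) :
    F.Bb q (pbk F.p q c) := by
  cases q with
  | zero =>
    have : c = 0 := hc
    rw [this, map_zero]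
    rfl
  | succ q =>
    obtain ⟨k, rfl⟩ := hc
    exact ⟨pbk F.p q k, F.pb_invB k, delta_pbk _ _ _⟩

/-- the class of `u q` in the quotient -/
lemma exists_u (F : Four P N) {q : ℕ} (hq : q ≤ Q + 1) :
    ∃ c : cocycles N q, pbk F.p q c = F.u q ∧ (Submodule.Quotient.mk c : Cohomology N q) ≠ 0 := by
  obtain ⟨h1, h2, h3⟩ := F.u_spec q
  obtain ⟨c, hc⟩ := F.exists_down h1 h2
  refine ⟨⟨c, mem_cocycles_of (F := F) (by rw [hc, h3])⟩, hc, ?_⟩
  intro h0
  rw [mk_eq_zero_iff] at h0
  have := bb_of_coboundary F h0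
  rw [hc] at this
  exact not_bb h F hq this

omit h in
/-- the correspondence between `H^q(N)` and `H^{q+1}(N)` -/
def W (F : Four P N) (q : ℕ) : Submodule (ZMod 2) (Cochain N q × Cochain P q × Cochain N (q + 1)) where
  carrier := {x | F.InvB x.2.1 ∧ pbk F.p q x.1 = F.TA x.2.1 ∧
    pbk F.p (q + 1) x.2.2 = delta P q x.2.1}
  zero_mem' := by
    refine ⟨fun _ => rfl, ?_, ?_⟩
    · show pbk F.p q 0 = F.TA 0
      rw [map_zero, eq_comm, F.TA_zero_iff]
      intro τ; rfl
    · show pbk F.p (q + 1) 0 = delta P q 0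
      rw [map_zero, map_zero]
  add_mem' := by
    rintro x y ⟨hx1, hx2, hx3⟩ ⟨hy1, hy2, hy3⟩
    refine ⟨F.invB_add hx1 hy1, ?_, ?_⟩
    · show pbk F.p q (x.1 + y.1) = F.TA (x.2.1 + y.2.1)
      rw [map_add, hx2, hy2, F.TA_add]
    · show pbk F.p (q + 1) (x.2.2 + y.2.2) = delta P q (x.2.1 + y.2.1)
      rw [map_add, hx3, hy3, map_add]
  smul_mem' := by
    rintro c x ⟨hx1, hx2, hx3⟩
    have hc : c = 0 ∨ c = 1 := by
      revert c; decide
    rcases hc with rfl | rfl
    · rw [zero_smul]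
      refine ⟨fun _ => rfl, ?_, ?_⟩
      · show pbk F.p q 0 = F.TA 0
        rw [map_zero, eq_comm, F.TA_zero_iff]
        intro τ; rfl
      · show pbk F.p (q + 1) 0 = delta P q 0
        rw [map_zero, map_zero]
    · rw [one_smul]
      exact ⟨hx1, hx2, hx3⟩

omit h in
lemma W_fst (F : Four P N) {q : ℕ} (x : W F q) : x.1.1 ∈ cocycles N q := by
  obtain ⟨hx1, hx2, hx3⟩ := x.2
  apply mem_cocycles_of (F := F)
  rw [hx2, F.delta_TA, ← hx3, F.TA_zero_iff]
  exact F.pb_invA _

omit h in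
lemma W_snd (F : Four P N) {q : ℕ} (x : W F q) : x.1.2.2 ∈ cocycles N (q + 1) := by
  obtain ⟨hx1, hx2, hx3⟩ := x.2
  apply mem_cocycles_of (F := F)
  rw [hx3, delta_delta]

omit h in
/-- the first projection, on classes -/
def g (F : Four P N) (q : ℕ) : W F q →ₗ[ZMod 2] Cohomology N q :=
  ((coboundaries N q).submoduleOf (cocycles N q)).mkQ.comp
    (((LinearMap.fst _ _ _).comp (W F q).subtype).codRestrict (cocycles N q) (W_fst F))

omit h in
/-- the last projection, on classes -/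
def f (F : Four P N) (q : ℕ) : W F q →ₗ[ZMod 2] Cohomology N (q + 1) :=
  ((coboundaries N (q + 1)).submoduleOf (cocycles N (q + 1))).mkQ.comp
    ((((LinearMap.snd _ _ _).comp (LinearMap.snd _ _ _)).comp (W F q).subtype).codRestrict
      (cocycles N (q + 1)) (W_snd F))

omit h in
lemma g_apply (F : Four P N) {q : ℕ} (x : W F q) :
    g F q x = Submodule.Quotient.mk ⟨x.1.1, W_fst F x⟩ := rfl

omit h in
lemma f_apply (F : Four P N) {q : ℕ} (x : W F q) :
    f F q x = Submodule.Quotient.mk ⟨x.1.2.2, W_snd F x⟩ := rfl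

omit h in
lemma g_surjective (F : Four P N) (q : ℕ) : Function.Surjective (g F q) := by
  intro y
  obtain ⟨c, rfl⟩ := Submodule.Quotient.mk_surjective _ y
  have hc : delta N q c = 0 := c.2
  set hh : Cochain P q := F.swap.cut (pbk F.p q c) with hdef
  have h1 : F.TA hh = pbk F.p q c := F.swap.TB_cut (F.pb_invA _)
  have h2 : F.InvB hh := F.swap.cut_invA (F.pb_invB _)
  have h3 : F.InvA (delta P q hh) := by
    rw [← F.TA_zero_iff, ← F.delta_TA, h1, delta_pbk, hc, map_zero]
  obtain ⟨c', hc'⟩ := F.exists_down h3 (F.delta_invB h2)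
  exact ⟨⟨(c, hh, c'), h2, h1.symm, hc'⟩, rfl⟩

lemma ker_le (F : Four P N) {q : ℕ} (hq : q ≤ Q) :
    LinearMap.ker (f F q) ≤ LinearMap.ker (g F q) := by
  intro x hx
  rw [LinearMap.mem_ker, f_apply, mk_eq_zero_iff] at hx
  rw [LinearMap.mem_ker, g_apply, mk_eq_zero_iff]
  obtain ⟨hx1, hx2, hx3⟩ := x.2
  obtain ⟨k, hk⟩ := hx
  have hk' : delta N q k = x.1.2.2 := hk
  have h1 : F.InvB (x.1.2.1 + pbk F.p q k) := F.invB_add hx1 (F.pb_invB k)
  have h2 : delta P q (x.1.2.1 + pbk F.p q k) = 0 := by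
    rw [map_add, ← hx3, delta_pbk, hk']
    exact add_self' _
  have h3 : ∃ y : Cochain P q, F.Bb q y ∧ F.TA y = pbk F.p q x.1.1 := by
    have h4 : F.TA (pbk F.p q k) = 0 := F.TA_zero_iff.2 (F.pb_invA k)
    rcases span h F hq _ h1 h2 with h5 | h5
    · refine ⟨_, h5, ?_⟩
      rw [F.TA_add, h4, add_zero, ← hx2]
    · refine ⟨_, h5, ?_⟩
      rw [F.TA_add, F.TA_add, h4, F.TA_zero_iff.2 (F.u_spec q).1, add_zero, add_zero, ← hx2]
  obtain ⟨y, hy1, hy2⟩ := h3
  show x.1.1 ∈ coboundaries N q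
  cases q with
  | zero =>
    have hy0 : y = 0 := hy1
    have h4 : pbk F.p 0 x.1.1 = pbk F.p 0 0 := by
      rw [← hy2, hy0, map_zero, F.TA_zero_iff]
      intro τ; rfl
    have h5 := F.pb_inj h4
    rw [h5]
    exact Submodule.zero_mem _
  | succ q =>
    obtain ⟨n, hn, hn'⟩ := hy1
    obtain ⟨n', hn2⟩ := F.exists_down (F.TA_invA n) (F.TA_invB hn)
    refine ⟨n', ?_⟩
    apply F.pb_inj
    rw [← hy2, ← hn', ← F.delta_TA, ← hn2, delta_pbk]

theorem rank_ge (F : Four P N) {q : ℕ} (hq : q ≤ Q + 1) :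
    ((q + 1 : ℕ) : Cardinal.{0}) ≤ Module.rank (ZMod 2) (Cohomology N q) := by
  induction q with
  | zero =>
    obtain ⟨c, _, hc⟩ := exists_u h F hq
    have : Nontrivial (Cohomology N 0) := ⟨⟨_, _, hc⟩⟩
    rw [zero_add, Nat.cast_one, Cardinal.one_le_iff_pos]
    exact rank_pos
  | succ q ih =>
    have h1 := ih (by omega)
    have h2 : Module.rank (ZMod 2) (Cohomology N q) ≤
        Module.rank (ZMod 2) (LinearMap.range (f F q)) := by
      have e := (LinearMap.quotKerEquivRange (f F q)).rank_eq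
      rw [← e]
      apply LinearMap.rank_le_of_surjective
        ((LinearMap.ker (f F q)).liftQ (g F q) (ker_le h F (by omega)))
      intro y
      obtain ⟨x, hx⟩ := g_surjective F q y
      exact ⟨Submodule.Quotient.mk x, hx⟩
    have h3 := Submodule.rank_quotient_add_rank (LinearMap.range (f F q))
    have h4 : (1 : Cardinal.{0}) ≤
        Module.rank (ZMod 2) (Cohomology N (q + 1) ⧸ LinearMap.range (f F q)) := by
      obtain ⟨c, hc1, hc2⟩ := exists_u h F hq
      have : Nontrivial (Cohomology N (q + 1) ⧸ LinearMap.range (f F q)) := by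
        refine ⟨⟨Submodule.Quotient.mk (Submodule.Quotient.mk c), 0, ?_⟩⟩
        rw [Ne, Submodule.Quotient.mk_eq_zero]
        rintro ⟨x, hx⟩
        rw [f_apply, eq_comm, Submodule.Quotient.eq] at hx
        have h5 : (c : Cochain N (q + 1)) - x.1.2.2 ∈ coboundaries N (q + 1) := hx
        obtain ⟨hx1, hx2, hx3⟩ := x.2
        obtain ⟨k, hk⟩ := h5
        have hk' : delta N q k = (c : Cochain N (q + 1)) - x.1.2.2 := hk
        apply not_bb h F hq
        refine ⟨x.1.2.1 + pbk F.p q k, F.invB_add hx1 (F.pb_invB k), ?_⟩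
        rw [map_add, ← hx3, delta_pbk, ← map_add, hk', add_sub_cancel, hc1]
      rw [Cardinal.one_le_iff_pos]
      exact rank_pos
    rw [← h3]
    calc ((q + 1 + 1 : ℕ) : Cardinal.{0}) = 1 + ((q + 1 : ℕ) : Cardinal.{0}) := by
          push_cast; ring
      _ ≤ _ := add_le_add h4 (h1.trans h2)

theorem totalBetti_ge (F : Four P N) (hQ : Q = 2) : 10 ≤ totalBetti N := by
  subst hQ
  have h1 : ∀ q ≤ 3, ((q + 1 : ℕ) : ℕ∞) ≤
      Cardinal.toENat (Module.rank (ZMod 2) (Cohomology N q)) := by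
    intro q hq
    have := Cardinal.toENat_le_iff_of_le_aleph0 (c := ((q + 1 : ℕ) : Cardinal.{0}))
      (c' := Module.rank (ZMod 2) (Cohomology N q)) (Cardinal.natCast_le_aleph0)
    rw [← Cardinal.toENat_nat (q + 1), this]
    exact rank_ge h F (by omega)
  refine le_trans ?_ (le_iSup _ 4)
  rw [Finset.sum_range_succ, Finset.sum_range_succ, Finset.sum_range_succ, Finset.sum_range_succ,
    Finset.sum_range_zero, zero_add]
  calc (10 : ℕ∞) = ((0 + 1 : ℕ) : ℕ∞) + ((1 + 1 : ℕ) : ℕ∞) + ((2 + 1 : ℕ) : ℕ∞) +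
        ((3 + 1 : ℕ) : ℕ∞) := by norm_num
    _ ≤ _ := by
      gcongr
      · exact h1 0 (by omega)
      · exact h1 1 (by omega)
      · exact h1 2 (by omega)
      · exact h1 3 (by omega)

end Four

end Pool.Agent.K6.H67.SY
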