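import Pool.Agent.K6.H67.SY.Rank
import Pool.Agent.H904R2.MV
import Pool.Agent.H904R2.Sphere

/-!
Vanishing of mod 2 cohomology of a product of three 3-spheres in the degrees 1 and 2.
-/

set_option autoImplicit false

open scoped Manifold ContDiff

noncomputable section

namespace Pool.Agent.K6.H67.SY

open Finsupp
open Pool.Agent.H904R2 (Ch IsCyc IsBdy RAcyc)
open Pool.Agent.Helper922.HB.Sc (Sing sface sbd sbd_sbd)

variable {X : Type} [TopologicalSpace X]

/-- chains mod 2 -/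
abbrev Ch2 (X : Type) [TopologicalSpace X] (n : ℕ) : Type := Simp X n →₀ ZMod 2

/-- boundary mod 2 -/
def bd2 (X : Type) [TopologicalSpace X] (n : ℕ) : Ch2 X (n + 1) →ₗ[ZMod 2] Ch2 X n :=
  ∑ i : Fin (n + 2), Finsupp.lmapDomain (ZMod 2) (ZMod 2) (face i)

lemma bd2_single (n : ℕ) (σ : Simp X (n + 1)) (a : ZMod 2) :
    bd2 X n (single σ a) = ∑ i : Fin (n + 2), single (face i σ) a := by
  simp only [bd2, LinearMap.sum_apply, lmapDomain_apply, mapDomain_single]

/-- evaluation of a cochain on a chain -/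
def ev2 {n : ℕ} (c : Cochain X n) : Ch2 X n →ₗ[ZMod 2] ZMod 2 :=
  Finsupp.linearCombination (ZMod 2) c

lemma ev2_single {n : ℕ} (c : Cochain X n) (σ : Simp X n) (a : ZMod 2) :
    ev2 c (single σ a) = a * c σ := by
  simp [ev2]

lemma ev2_bd2 {n : ℕ} (c : Cochain X n) (z : Ch2 X (n + 1)) :
    ev2 c (bd2 X n z) = ev2 (delta X n c) z := by
  have : (ev2 c).comp (bd2 X n) = ev2 (delta X n c) := by
    apply Finsupp.lhom_ext'
    intro σ
    apply LinearMap.ext_ring
    simp only [LinearMap.comp_apply, lsingle_apply]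
    rw [bd2_single, map_sum, ev2_single, one_mul]
    show _ = ∑ i : Fin (n + 2), c (face i σ)
    apply Finset.sum_congr rfl
    intro i _
    rw [ev2_single, one_mul]
  exact LinearMap.congr_fun this z

/-- reduction mod 2 -/
def red (n : ℕ) : Ch X n →+ Ch2 X n :=
  Finsupp.mapRange.addMonoidHom (Int.castAddHom (ZMod 2))

lemma red_single (n : ℕ) (σ : Simp X n) (a : ℤ) : red n (single σ a) = single σ (a : ZMod 2) := by
  unfold red
  rw [Finsupp.mapRange.addMonoidHom_apply, Finsupp.mapRange_single]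
  rfl

lemma red_sbd (n : ℕ) (z : Ch X (n + 1)) : red n (sbd X n z) = bd2 X n (red (n + 1) z) := by
  have : (red n).comp (sbd X n).toAddMonoidHom = (bd2 X n).toAddMonoidHom.comp (red (n + 1)) := by
    apply Finsupp.addHom_ext
    intro σ a
    show red n (sbd X n (single σ a)) = bd2 X n (red (n + 1) (single σ a))
    rw [red_single, bd2_single]
    have h1 : (single σ a : Ch X (n + 1)) = a • single σ (1 : ℤ) := by simp
    rw [h1, map_smul]
    unfold sbd
    rw [Pool.Agent.Helper922.HB.Sc.bd_single, Finset.smul_sum, map_sum]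
    apply Finset.sum_congr rfl
    intro i _
    have h2 : (a • (-1 : ℤ) ^ (i : ℕ) • single (sface n i σ) (1 : ℤ) : Ch X n) =
        single (sface n i σ) (a * (-1) ^ (i : ℕ)) := by
      rw [smul_single, smul_single]
      simp
    rw [h2, red_single]
    have h3 : ((a * (-1) ^ (i : ℕ) : ℤ) : ZMod 2) = (a : ZMod 2) := by
      push_cast
      have : (-1 : ZMod 2) = 1 := rfl
      rw [this, one_pow, mul_one]
    rw [h3]
    rfl
  exact DFunLike.congr_fun this z

lemma red_surjective (n : ℕ) (z : Ch2 X n) : ∃ w : Ch X n, red n w = z := by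
  refine ⟨Finsupp.mapRange (fun a : ZMod 2 => (a.val : ℤ)) rfl z, ?_⟩
  ext σ
  show (((z σ).val : ℤ) : ZMod 2) = z σ
  simp

lemma red_eq_zero (n : ℕ) (z : Ch X n) (hz : red n z = 0) : ∃ w : Ch X n, z = (2 : ℤ) • w := by
  refine ⟨Finsupp.mapRange (fun a : ℤ => a / 2) rfl z, ?_⟩
  ext σ
  have h1 : ((z σ : ℤ) : ZMod 2) = 0 := DFunLike.congr_fun hz σ
  have h2 : (2 : ℤ) ∣ z σ := (ZMod.intCast_zmod_eq_zero_iff_dvd _ 2).1 h1
  show z σ = 2 * (z σ / 2)
  omega

lemma smul_two_inj {n : ℕ} (z : Ch X n) (hz : (2 : ℤ) • z = 0) : z = 0 := by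
  ext σ
  have := DFunLike.congr_fun hz σ
  have h2 : 2 * z σ = 0 := this
  show z σ = 0
  omega

lemma red_two {n : ℕ} (z : Ch X n) : red n ((2 : ℤ) • z) = 0 := by
  ext σ
  show ((2 * z σ : ℤ) : ZMod 2) = 0
  push_cast
  have : (2 : ZMod 2) = 0 := rfl
  rw [this, zero_mul]

/-- acyclicity mod 2 -/
lemma exists_bd2 (q : ℕ) (h0 : RAcyc X q) (h1 : RAcyc X (q + 1)) (z : Ch2 X (q + 1))
    (hz : bd2 X q z = 0) : ∃ y, bd2 X (q + 1) y = z := by
  obtain ⟨w, hw⟩ := red_surjective (q + 1) z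
  have h2 : red q (sbd X q w) = 0 := by rw [red_sbd, hw, hz]
  obtain ⟨v, hv⟩ := red_eq_zero q _ h2
  have h3 : IsCyc q v := by
    cases q with
    | zero =>
      have h4 := Pool.Agent.H904R2.Sph.aug_sbd w
      rw [hv, map_smul] at h4
      rw [Pool.Agent.H904R2.Sph.isCyc_iff]
      show Pool.Agent.H904R2.Sph.aug X 0 v = 0
      have h5 : (2 : ℤ) * Pool.Agent.H904R2.Sph.aug X 0 v = 0 := h4
      omega
    | succ q =>
      show sbd X q v = 0
      apply smul_two_inj
      rw [← map_smul, ← hv, sbd_sbd]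
  obtain ⟨u, hu⟩ := h0 v h3
  have h4 : IsCyc (q + 1) (w - (2 : ℤ) • u) := by
    show sbd X q (w - (2 : ℤ) • u) = 0
    rw [map_sub, map_smul, hu, hv, sub_self]
  obtain ⟨y, hy⟩ := h1 _ h4
  refine ⟨red (q + 2) y, ?_⟩
  rw [← red_sbd, hy, map_sub, red_two, sub_zero, hw]

/-- vanishing of the cohomology mod 2 -/
lemma exists_delta (q : ℕ) (h0 : RAcyc X q) (h1 : RAcyc X (q + 1)) (c : Cochain X (q + 1))
    (hc : delta X (q + 1) c = 0) : ∃ m, delta X q m = c := by
  have hker : LinearMap.ker (bd2 X q) ≤ LinearMap.ker (ev2 c) := by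
    intro z hz
    obtain ⟨y, hy⟩ := exists_bd2 q h0 h1 z hz
    rw [LinearMap.mem_ker, ← hy, ev2_bd2, hc]
    simp [ev2]
  -- the functional on the boundaries
  let φ : LinearMap.range (bd2 X q) →ₗ[ZMod 2] ZMod 2 :=
    ((LinearMap.ker (bd2 X q)).liftQ (ev2 c) hker).comp
      (LinearMap.quotKerEquivRange (bd2 X q)).symm.toLinearMap
  obtain ⟨ψ, hψ⟩ := LinearMap.exists_extend φ
  refine ⟨fun σ => ψ (single σ 1), ?_⟩
  have hev : ev2 (fun σ => ψ (single σ 1)) = ψ := by
    apply Finsupp.lhom_ext'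
    intro σ
    apply LinearMap.ext_ring
    simp only [LinearMap.comp_apply, lsingle_apply]
    rw [ev2_single, one_mul]
  funext σ
  have h2 : delta X q (fun σ => ψ (single σ 1)) σ =
      ev2 (delta X q (fun σ => ψ (single σ 1))) (single σ 1) := by
    rw [ev2_single, one_mul]
  rw [h2, ← ev2_bd2, hev]
  have h3 : ψ (bd2 X q (single σ 1)) = φ ⟨bd2 X q (single σ 1), ⟨_, rfl⟩⟩ := by
    rw [← hψ]
    rfl
  rw [h3]
  show ((LinearMap.ker (bd2 X q)).liftQ (ev2 c) hker)
    ((LinearMap.quotKerEquivRange (bd2 X q)).symm ⟨bd2 X q (single σ 1), ⟨_, rfl⟩⟩) = c σ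
  have h4 : (LinearMap.quotKerEquivRange (bd2 X q)).symm ⟨bd2 X q (single σ 1), ⟨_, rfl⟩⟩ =
      Submodule.Quotient.mk (single σ 1) := by
    rw [LinearEquiv.symm_apply_eq]
    rfl
  rw [h4]
  show ev2 c (single σ 1) = c σ
  rw [ev2_single, one_mul]

lemma acyc_of_racyc {Q : ℕ} (h : ∀ q ≤ Q, RAcyc X q) (hne : Nonempty X) : Four.Acyc X Q where
  pos q hq c hc := exists_delta q (h q (by omega)) (h (q + 1) (by omega)) c hc
  ne := hne.map fun x => ContinuousMap.const _ x
  zero c hc := by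
    obtain ⟨x⟩ := hne
    let σ0 : Simp X 0 := ContinuousMap.const _ x
    have hconst : ∀ σ, c σ = c σ0 := by
      intro σ
      have h1 : IsCyc 0 (single σ (1 : ℤ) - single σ0 (1 : ℤ) : Ch X 0) := by
        rw [Pool.Agent.H904R2.Sph.isCyc_iff]
        show Pool.Agent.H904R2.Sph.aug X 0 _ = 0
        rw [map_sub, Pool.Agent.H904R2.Sph.aug_single, Pool.Agent.H904R2.Sph.aug_single, sub_self]
      obtain ⟨y, hy⟩ := h 0 (by omega) _ h1
      have h2 : ev2 c (red 0 (sbd X 0 y)) =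
        ev2 c (red 0 (single σ (1 : ℤ) - single σ0 (1 : ℤ))) := by rw [hy]
      rw [red_sbd, ev2_bd2, hc, map_sub, map_sub, red_single, red_single, ev2_single,
        ev2_single] at h2
      have h3 : ev2 (0 : Cochain X (0 + 1)) (red (0 + 1) y) = 0 := by simp [ev2]
      rw [h3] at h2
      push_cast at h2
      rw [one_mul, one_mul, eq_comm, sub_eq_zero] at h2
      exact h2
    have h0 : c σ0 = 0 ∨ c σ0 = 1 := by
      generalize c σ0 = a
      revert a
      decide
    rcases h0 with h0 | h0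
    · left
      funext σ
      rw [hconst, h0]
      rfl
    · right
      funext σ
      rw [hconst, h0]

/-! ### The product of three spheres -/

/-- Euclidean 4-space -/
abbrev E4 : Type := EuclideanSpace ℝ (Fin 4)

/-- the unit sphere in Euclidean 4-space -/
abbrev S3 : Type := Metric.sphere (0 : E4) 1

lemma norm_S3 (x : S3) : ‖(x : E4)‖ = 1 := mem_sphere_zero_iff_norm.1 x.2

lemma racyc_S3 (m : ℕ) (hm : m ≠ 3) : RAcyc S3 m := by
  let f : C(S3, Pool.Agent.H904R2.Pc 4) := ⟨fun x => ⟨fun i => (x : E4) i, fun h => by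
    have h1 : (x : E4) = 0 := by
      ext i
      exact congrFun h i
    have h2 := norm_S3 x
    rw [h1, norm_zero] at h2
    exact zero_ne_one h2⟩, by
    apply Continuous.subtype_mk
    refine continuous_pi fun i => ?_
    exact (EuclideanSpace.proj i : E4 →L[ℝ] ℝ).continuous.comp continuous_subtype_val⟩
  have hne : ∀ v : Pool.Agent.H904R2.Pc 4, (WithLp.toLp 2 v.1 : E4) ≠ 0 := by
    intro v h
    apply v.2
    funext i
    exact congrArg (fun w : E4 => w i) h
  have hcont : Continuous fun v : Pool.Agent.H904R2.Pc 4 => (WithLp.toLp 2 v.1 : E4) :=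
    (PiLp.continuous_toLp 2 _).comp continuous_subtype_val
  let g : C(Pool.Agent.H904R2.Pc 4, S3) := ⟨fun v =>
    ⟨‖(WithLp.toLp 2 v.1 : E4)‖⁻¹ • (WithLp.toLp 2 v.1 : E4), by
      rw [mem_sphere_zero_iff_norm, norm_smul, norm_inv, norm_norm,
        inv_mul_cancel₀ (norm_ne_zero_iff.2 (hne v))]⟩, by
    apply Continuous.subtype_mk
    exact (hcont.norm.inv₀ fun v => norm_ne_zero_iff.2 (hne v)).smul hcont⟩
  refine Pool.Agent.H904R2.MV.racyc_of_retract f g ?_ m
    (Pool.Agent.H904R2.pc_acyc 3 m hm)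
  ext1 x
  apply Subtype.ext
  show ‖(WithLp.toLp 2 (fun i => (x : E4) i) : E4)‖⁻¹ • (WithLp.toLp 2 (fun i => (x : E4) i) : E4)
    = (x : E4)
  have h1 : (WithLp.toLp 2 (fun i => (x : E4) i) : E4) = x := rfl
  rw [h1, norm_S3, inv_one, one_smul]

/-- the product of three spheres -/
abbrev PP : Type := S3 × (S3 × S3)

instance : Nonempty S3 := ⟨⟨EuclideanSpace.single 0 1, by simp⟩⟩

lemma racyc_prod {Q : ℕ} (hQ : Q < 3) : ∀ q ≤ Q, RAcyc PP q := by
  obtain ⟨v0⟩ : Nonempty S3 := inferInstance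
  have h1 : ∀ q < 3, RAcyc (S3 × S3) q := fun q hq =>
    Pool.Agent.H904R2.prod_acyc S3 S3 v0 3 q (fun j hj => racyc_S3 j (by omega)) hq
      (racyc_S3 q (by omega))
  intro q hq
  exact Pool.Agent.H904R2.prod_acyc S3 (S3 × S3) (v0, v0) 3 q h1 (by omega)
    (racyc_S3 q (by omega))

theorem acyc_PP : Four.Acyc PP 2 :=
  acyc_of_racyc (racyc_prod (by norm_num)) inferInstance

end Pool.Agent.K6.H67.SY
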